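import Pool.Agent.Work.MP_680515_an.Defs

/-!
# MP_680515_an: the definitions used in the final statement

The same notions as in `Defs.lean`, with the operator norm written out.
-/

open MeasureTheory Set Filter Topology

namespace Pool.Mart

/-- Operator norm of a matrix with respect to the Euclidean norm: the least `c ≥ 0` with
`|A v| ≤ c |v|` for all vectors `v`. -/
noncomputable def opNorm (A : M3) : ℝ := sInf {c : ℝ | 0 ≤ c ∧ ∀ v : E3, ‖act A v‖ ≤ c * ‖v‖}

/-- `f` is quasiregular on `Ω` with weak gradient `A` (some finite distortion bound). -/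
structure Quasiregular (Ω : Set E3) (f : E3 → E3) (A : E3 → M3) : Prop where
  cont : ContinuousOn f Ω
  wg : WeakGrad Ω f A
  qr : ∃ K : ℝ, 1 ≤ K ∧ ∀ᵐ x ∂(volume.restrict Ω), opNorm (A x) ^ 3 ≤ K * (A x).det

/-- The inner distortion of a map with gradient `A` on `Ω` is at most `K`:
`|cof A| ^ 3 ≤ K (det A) ^ 2` almost everywhere in `Ω`. -/
def InnerDistLe (Ω : Set E3) (A : E3 → M3) (K : ℝ) : Prop :=
  ∀ᵐ x ∂(volume.restrict Ω), opNorm (cofm (A x)) ^ 3 ≤ K * (A x).det ^ 2

theorem opn_eq_opNorm (A : M3) : opn A = opNorm A := ContinuousLinearMap.norm_def _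

theorem Quasiregular.qreg {Ω : Set E3} {f : E3 → E3} {A : E3 → M3} (h : Quasiregular Ω f A) :
    QReg Ω f A := by
  obtain ⟨K, h1, h2⟩ := h.qr
  refine ⟨h.cont, h.wg, K, h1, ?_⟩
  filter_upwards [h2] with x hx
  rw [opn_eq_opNorm]
  exact hx

theorem InnerDistLe.innerDist {Ω : Set E3} {A : E3 → M3} {K : ℝ} (h : InnerDistLe Ω A K) :
    InnerDist Ω A K := by
  filter_upwards [h] with x hx
  rw [opn_eq_opNorm]
  exact hx

end Pool.Mart
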