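import Pool.Agent.Work.MP_680515_an.IfaceA

/-!
# MP_680515_an: interface H (the package of a composition of nearly similar maps)

`ψ`, `φ` nearly similar, `ψ x*` on the axis.  `γ t = ψ⁻¹(ψ x* + κ t e3)` with a small `κ`.
-/

open MeasureTheory Set Filter Topology Complex

namespace Pool.Mart

/-- `lam • act O v + b` approximates `g` on the ball `B(y, r)` with error `ε lam r`. -/
structure SimAp (ε : ℝ) (g : E3 → E3) (y : E3) (r lam : ℝ) (O : M3) (b : E3) : Prop where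
  pos : 0 < lam
  so : O ∈ Matrix.specialOrthogonalGroup (Fin 3) ℝ
  ap : ∀ v ∈ Metric.ball y r, ‖g v - (lam • act O v + b)‖ ≤ ε * lam * r

/-- Near similarity on the ball `B(x, r0)`. -/
def NS (ε : ℝ) (g : E3 → E3) (x : E3) (r0 : ℝ) : Prop :=
  ∀ y ∈ Metric.ball x r0, ∀ r : ℝ, 0 < r → r < r0 →
    ∃ (lam : ℝ) (O : M3) (b : E3), SimAp ε g y r lam O b

/-- SCMP.  Two approximations on nested balls have almost the same ratio: for `v = y' + u`,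
`‖u‖ < r'`: `|lam - lam'| ‖u‖ ≤ ‖(lam O u) - (lam' O' u)‖ ≤ 2 ε (lam r + lam' r')`; let
`‖u‖ → r'`; so `|lam - lam'| ≤ 4 ε lam + 2 ε lam'`. -/
def Stmt_SCMP : Prop :=
  ∀ (ε : ℝ) (g : E3 → E3) (y y' : E3) (r r' lam lam' : ℝ) (O O' : M3) (b b' : E3), 0 ≤ ε →
    ε ≤ 1 / 100 → SimAp ε g y r lam O b → SimAp ε g y' r' lam' O' b' → 0 < r' → r' ≤ r →
    r ≤ 2 * r' → Metric.ball y' r' ⊆ Metric.ball y r → |lam' - lam| ≤ 10 * ε * lam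

/-- SURJ.  Local surjectivity.  Newton iteration: `x_0 = y0`, `r_k = r / 2^k`, `A_k` an
approximation on `B(x_k, r_k)` (`A_0` the given one) with ratio `lam_k`,
`x_{k+1} = x_k + lam_k⁻¹ O_kᵀ (y - g x_k)`.  Invariant: `‖y - g x_k‖ ≤ lam_k r_k / 4`.  Then
`‖x_{k+1} - x_k‖ ≤ r_k / 4`, `‖y - g x_{k+1}‖ ≤ 2 ε lam_k r_k ≤ lam_{k+1} r_{k+1} / 4` by `SCMP`
(`B(x_{k+1}, r_k/2) ⊆ B(x_k, r_k)`).  All `x_k` are in the closed ball of radius `r/2` around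
`y0`; the limit `p` has `‖p - x_k‖ ≤ r_k / 2`, so
`‖g p - y‖ ≤ lam_k (r_k/2 + 2 ε r_k) + lam_k r_k/4 ≤ lam_k r_k → 0`
(`lam_{k+1} r_{k+1} ≤ (11/20) lam_k r_k`).  Use a `structure`/`Subtype` valued recursion or
`exists_seq`. -/
def Stmt_SURJ : Prop :=
  ∀ (ε : ℝ) (g : E3 → E3) (x y0 : E3) (r0 r lam : ℝ) (O : M3) (b : E3), 0 ≤ ε → ε ≤ 1 / 100 →
    NS ε g x r0 → y0 ∈ Metric.ball x (r0 / 2) → 0 < r → r < r0 / 2 → SimAp ε g y0 r lam O b →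
    ∀ y : E3, ‖y - g y0‖ ≤ lam * r / 4 → ∃ p ∈ Metric.closedBall y0 (r / 2), g p = y

/-- INJS.  Local injectivity (approximation on `B(p, 2 ‖p - q‖)`). -/
def Stmt_INJS : Prop :=
  ∀ (ε : ℝ) (g : E3 → E3) (x : E3) (r0 : ℝ), 0 ≤ ε → ε ≤ 1 / 100 → NS ε g x r0 →
    ∀ p ∈ Metric.ball x (r0 / 4), ∀ q ∈ Metric.ball x (r0 / 4), g p = g q → p = q

/-- RADS.  Choice of a radius with prescribed `lam r`: radii `r_k = r1 / 2^k`, approximations on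
`B(y0, r_k)` (the given one for `k = 0`); `lam_k r_k → 0` (`SCMP`: factor at most `11/20`), take
the largest `k` with `σ ≤ lam_k r_k`; `lam_k r_k ≤ 2 (1 - 10 ε)⁻¹ lam_{k+1} r_{k+1} ≤ 3 σ`. -/
def Stmt_RADS : Prop :=
  ∀ (ε : ℝ) (g : E3 → E3) (x y0 : E3) (r0 r1 lam1 : ℝ) (O1 : M3) (b1 : E3), 0 ≤ ε →
    ε ≤ 1 / 100 → NS ε g x r0 → y0 ∈ Metric.ball x r0 → 0 < r1 → r1 < r0 →
    SimAp ε g y0 r1 lam1 O1 b1 → ∀ σ : ℝ, 0 < σ → σ ≤ lam1 * r1 →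
    ∃ (r lam : ℝ) (O : M3) (b : E3), 0 < r ∧ r ≤ r1 ∧ SimAp ε g y0 r lam O b ∧ σ ≤ lam * r ∧
      lam * r ≤ 3 * σ

/-- CURV.  The curve and the source frames.  `r0` from `NearSim` at `xs`, `r1 = r0/16`, `lam1` the
ratio of an approximation on `B(xs, r1)`, `κ0 = lam1 r1 / 1000`.  `γ t` is given by `SURJ` at `xs`
(in the closed ball of radius `r1/2` around `xs`; `21 κ ≤ lam1 r1/4`).  At `a = γ t`: ratio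
`lam_a ≥ 0.9 lam1` on `B(a, r1/2)` (`SCMP`); `RADS` with `σ = 300 κ sc n`:
`300 κ sc n ≤ lam r ≤ 900 κ sc n`.  `L = κ sc n / lam`, `Q = Oᵀ`.  For `‖X‖ ≤ 66` the point
`a + L Q X` is in `B(a, r)` and `ψ (a + L Q X) = ψ a + κ sc n X` up to `2 ε lam r`.  The point
`c = γ (t + s sc n)` is in `B(a, r)`: `SURJ` at `a` gives `c'` in the closed ball of radius `r/2`
around `a` with `ψ c' = ψ c` (`64 κ sc n ≤ lam r/4`), `c' = c` by `INJS`; so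
`c - a = s L Q e3` up to `2 ε r ≤ 1800 ε L`. -/
def Stmt_CURV : Prop :=
  ∃ C : ℝ, 0 < C ∧ ∀ (ε : ℝ) (Ω : Set E3) (ψ : E3 → E3) (xs : E3), 0 ≤ ε → ε ≤ 1 / 100 →
    NearSim ε ψ Ω → xs ∈ Ω → ∃ κ0 : ℝ, 0 < κ0 ∧ ∀ κ : ℝ, 0 < κ → κ ≤ κ0 →
    ∃ γ : ℝ → E3, (∀ t ∈ Icc (-21 : ℝ) 21, γ t ∈ Ω ∧ ψ (γ t) = ψ xs + (κ * t) • e3) ∧
      ∀ t ∈ Icc (-20 : ℝ) 20, ∀ n : ℕ, ∃ (L : ℝ) (Q : M3), 0 < L ∧
        Q ∈ Matrix.specialOrthogonalGroup (Fin 3) ℝ ∧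
        (∀ s : ℝ, |s| ≤ 64 → t + s * sc n ∈ Icc (-21 : ℝ) 21 →
          ‖γ (t + s * sc n) - γ t - (s * L) • act Q e3‖ ≤ C * ε * L) ∧
        (∀ X : E3, ‖X‖ ≤ 66 → γ t + L • act Q X ∈ Ω ∧
          ‖ψ (γ t + L • act Q X) - (ψ xs + (κ * t) • e3 + (κ * sc n) • X)‖
            ≤ C * ε * (κ * sc n))

/-- TARG.  The target side: approximation of `φ` on `B(ys + κ t e3, 70 κ sc n)`,
`Λ = lam κ sc n`. -/
def Stmt_TARG : Prop :=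
  ∃ C : ℝ, 0 < C ∧ ∀ (ε : ℝ) (V : Set E3) (φ : E3 → E3) (ys : E3), 0 ≤ ε →
    NearSim ε φ V → ys ∈ V → ∃ κ0 : ℝ, 0 < κ0 ∧ ∀ κ : ℝ, 0 < κ → κ ≤ κ0 →
    ∀ t ∈ Icc (-20 : ℝ) 20, ∀ n : ℕ, ∃ (Λ : ℝ) (Q : M3), 0 < Λ ∧
      Q ∈ Matrix.specialOrthogonalGroup (Fin 3) ℝ ∧
      ∀ W : E3, ‖W‖ ≤ 68 →
        ‖φ (ys + (κ * t) • e3 + (κ * sc n) • W) - φ (ys + (κ * t) • e3) - Λ • act Q W‖
          ≤ C * ε * Λ

/-- ROTF.  Small rotation moving a unit vector to a close unit vector (Rodrigues: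
`R = 1 + K + K^2/(1 + ⟨u,v⟩)`, `K x = w × x`, `w = u × v`, `|w| ≤ |u - v|`). -/
def Stmt_ROTF : Prop :=
  ∀ u v : E3, ‖u‖ = 1 → ‖v‖ = 1 → ‖u - v‖ ≤ 1 →
    ∃ R : M3, R ∈ Matrix.specialOrthogonalGroup (Fin 3) ℝ ∧ act R u = v ∧
      ∀ x : E3, ‖act R x - x‖ ≤ 4 * ‖u - v‖ * ‖x‖

/-- FIXF.  Frame correction: `w = L Q e3 + O(δ L)` gives a frame `O` with `w = |w| O e3` close to
`Q` (`ROTF` with `u = Q e3`, `v = w/|w|`, `O = R Q`). -/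
def Stmt_FIXF : Prop :=
  ∀ (Q : M3) (L δ : ℝ) (w : E3), Q ∈ Matrix.specialOrthogonalGroup (Fin 3) ℝ → 0 < L → 0 ≤ δ →
    δ ≤ 1 / 4 → ‖w - L • act Q e3‖ ≤ δ * L →
    ∃ O : M3, O ∈ Matrix.specialOrthogonalGroup (Fin 3) ℝ ∧ w = ‖w‖ • act O e3 ∧
      |‖w‖ - L| ≤ δ * L ∧ 0 < ‖w‖ ∧ ∀ X : E3, ‖act O X - act Q X‖ ≤ 8 * δ * ‖X‖ ∧
        ‖‖w‖ • act O X - L • act Q X‖ ≤ 12 * δ * L * ‖X‖

/-- PACK.  The package.  `CURV`, `TARG` with the smaller `κ`; `ψ xs = ys` is on the axis and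
`wind (ys + a e3) = ys + a e3`; `f (γ t) = φ (ys + κ t e3)`.  Frames from `FIXF` with
`w = γ (t + sc n) - γ t` (`s = 1` in `CURV`) and `w = f (γ (t + sc n)) - f (γ t)` (`W = e3` in
`TARG`).  `close`: `γ t + len O X = γ t + L Q X'` with `X' = (len/L) Qᵀ O X`,
`‖X' - X‖ ≤ C ε`, `ψ (..) = ys + κ t e3 + κ sc n (X + E)`, `‖E‖ ≤ C ε`;
`wind (ys + κ t e3 + κ sc n Z) = ys + κ t e3 + κ sc n wind Z` (`WIN1`), `TARG` with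
`W = wind (X + E)`. -/
def Stmt_PACK : Prop :=
  ∃ C ε0 : ℝ, 0 < C ∧ 0 < ε0 ∧ ∀ (ε : ℝ) (Ω V : Set E3) (φ ψ : E3 → E3), 0 ≤ ε → ε ≤ ε0 →
    (∀ x ∈ Ω, wind (ψ x) ∈ V) → NearSim ε ψ Ω → NearSim ε φ V → (∃ x ∈ Ω, rad (ψ x) = 0) →
    ∃ (γ : ℝ → E3) (O O' : ℝ → ℕ → M3), Pack (C * ε) Ω (fun x => φ (wind (ψ x))) γ O O'

end Pool.Mart
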