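import Pool.Agent.Work.MP_680515_an.IfaceW

/-!
# MP_680515_an: interface M (two models, gauge, stability, deviations)

A system with base points `x0`, `x1` inside a normalised map `F` is renormalised: source frame `S`
with `S e3 = (x1 - x0)/λ`, target frame `S'` with `S' e3 = (F x1 - F x0)/λ'`.
-/

open MeasureTheory Set Filter Topology Complex

namespace Pool.Mart

/-- Renormalised map. -/
noncomputable def ren (F : E3 → E3) (x0 x1 : E3) (S S' : M3) (Y : E3) : E3 :=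
  ‖F x1 - F x0‖⁻¹ • act S'.transpose (F (x0 + ‖x1 - x0‖ • act S Y) - F x0)

/-- Data of a base point: the value at its height of the real affine function which compares the
models. -/
noncomputable def da (F : E3 → E3) (x : E3) : Fin 5 → ℝ :=
  ![-(F x 2 - x 2), -(x 0) / 2, -(x 1) / 2, F x 0 / 2, F x 1 / 2]

/-- Euclidean norm of a vector with five entries. -/
noncomputable def en (a : Fin 5 → ℝ) : ℝ := ‖(WithLp.toLp 2 a : EuclideanSpace ℝ (Fin 5))‖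

/-- The function on three space (coordinates `ζ`, `θ`) with modes `aff a b`. -/
noncomputable def pt (a b : Fin 5 → ℝ) (ζ : ℂ) (θ : ℝ) : ℂ :=
  -I * ((a 0 : ℂ) + (b 0 : ℂ) * (-I * ζ))
    + 2 * ∑ k ∈ ({1, 2, 3, 4} : Finset (Fin 5)), (kap k θ : ℂ) * ((a k : ℂ) + (b k : ℂ) * (-I * ζ))

/-- Action of a real matrix on `ℂ^5`. -/
noncomputable def actC (R : Matrix (Fin 5) (Fin 5) ℝ) (w : C5) : C5 :=
  WithLp.toLp 2 fun k => ∑ j, (R k j : ℂ) * w j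

/-- The mode rotation matrix. -/
noncomputable def Rm (α : ℝ) : Matrix (Fin 5) (Fin 5) ℝ :=
  !![1, 0, 0, 0, 0;
     0, Real.cos α, Real.sin α, 0, 0;
     0, -Real.sin α, Real.cos α, 0, 0;
     0, 0, 0, Real.cos (2 * α), Real.sin (2 * α);
     0, 0, 0, -Real.sin (2 * α), Real.cos (2 * α)]

/-- The region of the comparison. -/
def EE : Set ℂ := {ζ | 1 / 16 < ζ.re ∧ ζ.re < 16 ∧ |ζ.im| < 16}

/-- ROTZ.  A rotation which moves `e3` little is close to a rotation about `e3`: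
`u = S e3`, `|u_⊥| ≤ δ ≤ 1/2`, `u 2 > 0`. -/
def Stmt_ROTZ : Prop :=
  ∃ C : ℝ, 0 < C ∧ ∀ (S : M3) (δ : ℝ), S ∈ Matrix.specialOrthogonalGroup (Fin 3) ℝ →
    rad (act S e3) ≤ δ → δ ≤ 1 / 2 → 0 < act S e3 2 →
    ∃ α : ℝ, ∀ Y : E3, ‖act S Y - act (rotz α) Y‖ ≤ C * δ * ‖Y‖

/-- LINE.  Distance to a line and coordinate along it, first order expansion.  `q` is the base
point, `u` the direction, `W` the point: `T = ⟨W - q, u⟩`, `D = |W - q - T u|`. -/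
def Stmt_LINE : Prop :=
  ∀ ρ : ℝ, 0 < ρ → ρ ≤ 1 → ∃ C κ : ℝ, 0 < C ∧ 0 < κ ∧ ∀ (q u W : E3) (m : ℝ), ‖u‖ = 1 →
    0 ≤ m → m ≤ κ → rad q ≤ m → rad u ≤ m → 0 < u 2 → ρ ≤ rad W → ‖W‖ ≤ 64 → ‖q‖ ≤ 64 →
    |‖W - q - (inner ℝ (W - q) u) • u‖
      - (rad W - ((W 0 / rad W) * (q 0 + (W 2 - q 2) * u 0)
          + (W 1 / rad W) * (q 1 + (W 2 - q 2) * u 1)))| ≤ C * m ^ 2 ∧
    |inner ℝ (W - q) u - ((W 2 - q 2) + (W 0 * u 0 + W 1 * u 1))| ≤ C * m ^ 2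

/-- RENC.  The cylindrical coordinates of the renormalised map are distances to lines. -/
def Stmt_RENC : Prop :=
  ∀ (S : M3) (v : E3), S ∈ Matrix.specialOrthogonalGroup (Fin 3) ℝ →
    rad (act S.transpose v) = ‖v - (inner ℝ v (act S e3)) • act S e3‖ ∧
    act S.transpose v 2 = inner ℝ v (act S e3) ∧ ‖act S.transpose v‖ = ‖v‖ ∧
    |act S v 2 - act S e3 2 * v 2| ≤ rad (act S e3) * rad v ∧
    rad (act S v) ≤ |v 2| * rad (act S e3) + rad v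

/-- Hypotheses on the subsystem. -/
structure Sub (lm ε m : ℝ) (F : E3 → E3) (x0 x1 : E3) (S S' : M3) : Prop where
  so : S ∈ Matrix.specialOrthogonalGroup (Fin 3) ℝ
  so' : S' ∈ Matrix.specialOrthogonalGroup (Fin 3) ℝ
  b : x1 - x0 = ‖x1 - x0‖ • act S e3
  b' : F x1 - F x0 = ‖F x1 - F x0‖ • act S' e3
  low : lm ≤ ‖x1 - x0‖
  up : ‖x1 - x0‖ ≤ 7 / 10
  pos' : 0 < ‖F x1 - F x0‖
  ord : x0 2 < x1 2
  loc : ‖x0‖ ≤ 17 / 2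
  dv : dev x0 (F x0) + dev x1 (F x1) ≤ m * ‖x1 - x0‖

/-- MCB.  Facts about the base points of a subsystem: `u = S e3`, `u' = S' e3`, `λ`, `λ'`:
`x1 - x0 = λ u`, `F x1 - F x0 = λ' u'`, `|u_⊥| ≤ m`, `b = (da F x1 - da F x0)/(x1 2 - x0 2)`. -/
def Stmt_MCB : Prop :=
  ∀ lm : ℝ, 0 < lm → lm ≤ 1 / 2 → ∃ C κ : ℝ, 0 < C ∧ 0 < κ ∧
    ∀ (ε m : ℝ) (F : E3 → E3) (x0 x1 : E3) (S S' : M3), 0 ≤ m →
      m ≤ κ → Sub lm ε m F x0 x1 S S' →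
    rad (act S e3) ≤ m ∧ rad (act S' e3) ≤ 2 * m ∧ 0 < act S e3 2 ∧ 0 < act S' e3 2 ∧
    |‖F x1 - F x0‖ - ‖x1 - x0‖| ≤ 4 * m ∧ rad x0 ≤ m ∧ rad (F x0) ≤ m ∧ |F x0 2 - x0 2| ≤ m ∧
    ‖x0 - (x0 2) • e3‖ ≤ m * ‖x1 - x0‖ ∧
    ∃ a b : Fin 5 → ℝ, (a + (x0 2) • b = da F x0) ∧ (a + (x1 2) • b = da F x1) ∧
      |b 0 - (‖x1 - x0‖ / ‖F x1 - F x0‖ - 1)| ≤ C * m ^ 2 ∧
      |b 1 + act S e3 0 / 2| ≤ C * m ^ 2 ∧ |b 2 + act S e3 1 / 2| ≤ C * m ^ 2 ∧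
      |b 3 - act S' e3 0 / 2| ≤ C * m ^ 2 ∧ |b 4 - act S' e3 1 / 2| ≤ C * m ^ 2 ∧
      (∀ k, |a k| ≤ C * m ∧ |b k| ≤ C * m)

/-- MCP.  Pointwise comparison of two models.  `λ = |x1 - x0|`, `Y = cyl ζ θ`,
`X = x0 + λ S Y`, `W = F X`, `μ = λ'/λ`.  By `MCB`, `RENC` and `LINE` (source line `x0`, `S e3`; target
line `F x0`, `S' e3`)
`λ G2(Y) = (1/μ) (rad W - ⟨er W, F x0_⊥ + (W 2 - F x0 2) u'_⊥⟩) - (rad X - ⟨er X, x0_⊥ + (X 2 - x0 2) u_⊥⟩)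
  + i ((1/μ) ((W 2 - F x0 2) + W_⊥ u'_⊥) - ((X 2 - x0 2) + X_⊥ u_⊥)) + O(m^2)`,
and `|X - cyl (z0 I + λ ζ) (θ + α)| ≤ C m`, `|W - wind X| ≤ ε`, `|μ - 1| ≤ C m`,
`er W` is `(cos, sin)(2(θ+α))` up to `C (ε + m)`. -/
def Stmt_MCP : Prop :=
  ∀ lm : ℝ, 0 < lm → lm ≤ 1 / 2 → ∃ C κ : ℝ, 0 < C ∧ 0 < κ ∧
    ∀ (ε m : ℝ) (F : E3 → E3) (A : E3 → M3) (x0 x1 : E3) (S S' : M3), 0 ≤ ε → ε ≤ κ → 0 ≤ m →
      m ≤ κ → Nm ε F A → Sub lm ε m F x0 x1 S S' →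
    ∃ (α : ℝ) (a b : Fin 5 → ℝ), (a + (x0 2) • b = da F x0) ∧ (a + (x1 2) • b = da F x1) ∧
      (∀ Y : E3, ‖act S Y - act (rotz α) Y‖ ≤ C * m * ‖Y‖) ∧
      ∀ ζ ∈ EE, ∀ θ : ℝ,
        ‖(‖x1 - x0‖ : ℂ) * gg (cyl ζ θ) (ren F x0 x1 S S' (cyl ζ θ))
          - (gg (x0 + ‖x1 - x0‖ • act S (cyl ζ θ)) (F (x0 + ‖x1 - x0‖ • act S (cyl ζ θ)))
            - pt a b ((x0 2 : ℂ) * I + (‖x1 - x0‖ : ℂ) * ζ) (θ + α))‖ ≤ C * (ε + m) * m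

/-- MODP.  The modes of `pt a b` are `aff a b`; rotation of the angle acts by `Rm`;
`Rm` is orthogonal and preserves norms and real affine functions. -/
def Stmt_MODP : Prop :=
  (∀ (a b : Fin 5 → ℝ) (ζ : ℂ) (g : E3 → ℂ), (∀ θ, g (cyl ζ θ) = pt a b ζ θ) →
    modes g ζ = aff a b ζ) ∧
  (∀ (α : ℝ) (h : ℝ → ℂ), Continuous h → Function.Periodic h (2 * Real.pi) → ∀ k : Fin 5,
    cst k * ((2 * Real.pi)⁻¹ : ℝ) * ∫ θ in (0 : ℝ)..(2 * Real.pi), (kap k θ : ℂ) * h (θ + α)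
      = ∑ j, (Rm α k j : ℂ) * (cst j * ((2 * Real.pi)⁻¹ : ℝ) *
        ∫ θ in (0 : ℝ)..(2 * Real.pi), (kap j θ : ℂ) * h θ)) ∧
  (∀ (α : ℝ) (w : C5), ‖actC (Rm α) w‖ = ‖w‖) ∧
  (∀ (α : ℝ) (a : Fin 5 → ℝ), en ((Rm α).mulVec a) = en a) ∧
  (∀ (α : ℝ) (a b : Fin 5 → ℝ) (ζ : ℂ),
    actC (Rm α) (aff a b ζ) = aff ((Rm α).mulVec a) ((Rm α).mulVec b) ζ) ∧
  (∀ (α : ℝ) (w w' : C5), actC (Rm α) (w + w') = actC (Rm α) w + actC (Rm α) w') ∧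
  (∀ (α : ℝ) (w : C5), actC (Rm (-α)) (actC (Rm α) w) = w) ∧
  (∀ (α : ℝ) (a : Fin 5 → ℝ), (Rm (-α)).mulVec ((Rm α).mulVec a) = a)

/-- MCI.  Integrated comparison of the modes of two models: `MCP`, `DISP`, `MODP`.
`η` bounds the integral of the gradient. -/
def Stmt_MCI : Prop :=
  ∀ lm : ℝ, 0 < lm → lm ≤ 1 / 2 → ∃ C κ : ℝ, 0 < C ∧ 0 < κ ∧
    ∀ (ε m η : ℝ) (F : E3 → E3) (A : E3 → M3) (x0 x1 : E3) (S S' : M3), 0 ≤ ε → ε ≤ κ → 0 ≤ m →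
      m ≤ κ → Nm ε F A → Sub lm ε m F x0 x1 S S' →
      (∫ X in RG (lm / 64), grd F A X) ≤ η →
    ∃ (α : ℝ) (a b : Fin 5 → ℝ), (a + (x0 2) • b = da F x0) ∧ (a + (x1 2) • b = da F x1) ∧
      ContinuousOn (vv (ren F x0 x1 S S')) EE ∧ IntegrableOn (vv (ren F x0 x1 S S')) EE ∧
      ContinuousOn (fun ζ : ℂ => vv F ((x0 2 : ℂ) * I + (‖x1 - x0‖ : ℂ) * ζ)) EE ∧
      IntegrableOn (fun ζ : ℂ => vv F ((x0 2 : ℂ) * I + (‖x1 - x0‖ : ℂ) * ζ)) EE ∧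
      ∫ ζ in EE, ‖vv (ren F x0 x1 S S') ζ - ((‖x1 - x0‖⁻¹ : ℝ) : ℂ) • actC (Rm α)
        (vv F ((x0 2 : ℂ) * I + (‖x1 - x0‖ : ℂ) * ζ)
          - aff a b ((x0 2 : ℂ) * I + (‖x1 - x0‖ : ℂ) * ζ))‖ ≤ C * (ε + m + η) * m

/-- TRF.  Transfer of real affine approximations between the two systems (from `MCI` by the
change of variables `ζ ↦ z0 I + λ ζ`). -/
def Stmt_TRF : Prop :=
  ∀ lm : ℝ, 0 < lm → lm ≤ 1 / 2 → ∃ C κ : ℝ, 0 < C ∧ 0 < κ ∧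
    ∀ (ε m η : ℝ) (F : E3 → E3) (A : E3 → M3) (x0 x1 : E3) (S S' : M3), 0 ≤ ε → ε ≤ κ → 0 ≤ m →
      m ≤ κ → Nm ε F A → Sub lm ε m F x0 x1 S S' →
      (∫ X in RG (lm / 64), grd F A X) ≤ η →
    ∀ E2 : Set ℂ, MeasurableSet E2 → E2 ⊆ EE →
      (∀ a2 b2 : Fin 5 → ℝ, ∃ a1 b1 : Fin 5 → ℝ,
        ∫ ζ in (fun ζ : ℂ => (x0 2 : ℂ) * I + (‖x1 - x0‖ : ℂ) * ζ) '' E2, ‖vv F ζ - aff a1 b1 ζ‖
          ≤ ‖x1 - x0‖ ^ 3 * (∫ ζ in E2, ‖vv (ren F x0 x1 S S') ζ - aff a2 b2 ζ‖)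
            + C * (ε + m + η) * m) ∧
      (∀ a1 b1 : Fin 5 → ℝ, ∃ a2 b2 : Fin 5 → ℝ,
        ‖x1 - x0‖ ^ 3 * (∫ ζ in E2, ‖vv (ren F x0 x1 S S') ζ - aff a2 b2 ζ‖)
          ≤ (∫ ζ in (fun ζ : ℂ => (x0 2 : ℂ) * I + (‖x1 - x0‖ : ℂ) * ζ) '' E2,
              ‖vv F ζ - aff a1 b1 ζ‖) + C * (ε + m + η) * m)

/-- STB.  Stability: two consecutive systems.  `p`, `q` approximate the modes of `F` and of the
renormalised map on `QQ`.  (`MCI` on `QQ ∩ λ⁻¹(QQ - z0 I)`, which contains the square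
`{1/2 < r < 1, |z - 1/4| < 1/4}`, and the equivalence of norms of real affine functions.) -/
def Stmt_STB : Prop :=
  ∃ C κ : ℝ, 0 < C ∧ 0 < κ ∧
    ∀ (ε m η d1 d2 : ℝ) (F : E3 → E3) (A : E3 → M3) (x0 x1 : E3) (S S' : M3)
      (pa pb qa qb : Fin 5 → ℝ), 0 ≤ ε → ε ≤ κ → 0 ≤ m →
      m ≤ κ → Nm ε F A → Sub (2 / 5) ε m F x0 x1 S S' → ‖x1 - x0‖ ≤ 3 / 5 →
      |x0 2| ≤ 3 / 5 → en pb ≤ 1 →
      (∫ X in RG (1 / 160), grd F A X) ≤ η →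
      (∫ ζ in QQ, ‖vv F ζ - aff pa pb ζ‖) ≤ d1 →
      (∫ ζ in QQ, ‖vv (ren F x0 x1 S S') ζ - aff qa qb ζ‖) ≤ d2 →
    ∃ α : ℝ,
      en (pa + (x0 2) • pb - da F x0 - ‖x1 - x0‖ • (Rm α).mulVec qa)
        ≤ C * (d1 + d2 + (ε + m + η) * m) ∧
      en (pa + (x1 2) • pb - da F x1 - ‖x1 - x0‖ • (Rm α).mulVec (qa + qb))
        ≤ C * (d1 + d2 + (ε + m + η) * m)

/-- RENS.  The system `(t', n')` is the renormalisation of the system `(t, n)` at the base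
points `nX (γ t')`, `nX (γ (t' + sc n'))`. -/
def Stmt_RENS : Prop :=
  ∀ (ε : ℝ) (Ω : Set E3) (f : E3 → E3) (γ : ℝ → E3) (O O' : ℝ → ℕ → M3), 0 ≤ ε → ε ≤ 1 / 1024 →
    Pack ε Ω f γ O O' → ∀ t ∈ Icc (-20 : ℝ) 20, ∀ n : ℕ, ∀ t' ∈ Icc (-20 : ℝ) 20, ∀ n' : ℕ,
    let F := nF f γ O O' t n
    let x0 := nX γ O t n (γ t')
    let x1 := nX γ O t n (γ (t' + sc n'))
    let S := (O t n).transpose * O t' n'
    let S' := (O' t n).transpose * O' t' n'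
    ‖x1 - x0‖ = len γ t' n' / len γ t n ∧
    ‖F x1 - F x0‖ = len (f ∘ γ) t' n' / len (f ∘ γ) t n ∧
    (∀ Y, ren F x0 x1 S S' Y = nF f γ O O' t' n' Y) ∧
    S ∈ Matrix.specialOrthogonalGroup (Fin 3) ℝ ∧ S' ∈ Matrix.specialOrthogonalGroup (Fin 3) ℝ ∧
    x1 - x0 = ‖x1 - x0‖ • act S e3 ∧ F x1 - F x0 = ‖F x1 - F x0‖ • act S' e3 ∧
    (∀ Y, γ t' + len γ t' n' • act (O t' n') Y
      = γ t + len γ t n • act (O t n) (x0 + ‖x1 - x0‖ • act S Y))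

/-- GEO1.  Deviation of a point of the subsystem. -/
def Stmt_GEO1 : Prop :=
  ∀ (F : E3 → E3) (x0 x1 Y : E3) (S S' : M3),
    S ∈ Matrix.specialOrthogonalGroup (Fin 3) ℝ → S' ∈ Matrix.specialOrthogonalGroup (Fin 3) ℝ →
    x1 - x0 = ‖x1 - x0‖ • act S e3 → F x1 - F x0 = ‖F x1 - F x0‖ • act S' e3 →
    0 < ‖F x1 - F x0‖ → ‖F x1 - F x0‖ ≤ 2 * ‖x1 - x0‖ →
    dev (x0 + ‖x1 - x0‖ • act S Y) (F (x0 + ‖x1 - x0‖ • act S Y))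
      ≤ 10 * (1 + ‖Y‖ + ‖ren F x0 x1 S S' Y‖) * (dev x0 (F x0) + dev x1 (F x1))
        + 10 * ‖x1 - x0‖ * dev Y (ren F x0 x1 S S' Y)

/-- Midpoint deviation at scale `n`. -/
noncomputable def XX (f : E3 → E3) (γ : ℝ → E3) (O O' : ℝ → ℕ → M3) (t : ℝ) (n : ℕ) : ℝ :=
  Dv f γ O O' t n (t + sc (n + 1))

/-- Sum of the midpoint deviations near `t` at the scales `n-1, ..., n + k0`. -/
noncomputable def SS (f : E3 → E3) (γ : ℝ → E3) (O O' : ℝ → ℕ → M3) (k0 : ℕ) (t : ℝ) (n : ℕ) : ℝ :=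
  ∑ j ∈ Finset.range (k0 + 2), ∑ i ∈ Finset.Icc (-(12 * 2 ^ j) : ℤ) (12 * 2 ^ j),
    XX f γ O O' (t + i * sc (n + j)) (n - 1 + j)

/-- GEO2.  Three points: extrapolation to the right and to the left. -/
def Stmt_GEO2 : Prop :=
  ∃ C : ℝ, 0 < C ∧ ∀ (ε : ℝ) (Ω : Set E3) (f : E3 → E3) (γ : ℝ → E3) (O O' : ℝ → ℕ → M3),
    0 ≤ ε → ε ≤ 1 / 1024 → Pack ε Ω f γ O O' → ∀ t ∈ Icc (-18 : ℝ) 18, ∀ n : ℕ,
    Dv f γ O O' t (n + 1) (t + sc n) ≤ C * XX f γ O O' t n ∧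
    Dv f γ O O' (t + sc (n + 1)) (n + 1) t ≤ C * XX f γ O O' t n ∧
    Dv f γ O O' t n t = 0 ∧ Dv f γ O O' t n (t + sc n) = 0 ∧ XX f γ O O' t n ≤ 20 * ε

/-- GEO3.  Deviations of all dyadic points near the system (`GEO1`, `GEO2`, `RENS`, induction). -/
def Stmt_GEO3 : Prop :=
  ∀ k0 : ℕ, ∃ C : ℝ, 0 < C ∧ ∀ (ε : ℝ) (Ω : Set E3) (f : E3 → E3) (γ : ℝ → E3)
    (O O' : ℝ → ℕ → M3), 0 ≤ ε → ε ≤ (2 : ℝ)⁻¹ ^ (k0 + 20) → Pack ε Ω f γ O O' →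
    ∀ t ∈ Icc (-3 : ℝ) 3, ∀ n : ℕ, 1 ≤ n → ∀ k ≤ k0, ∀ i : ℤ, |i| ≤ 9 * 2 ^ k →
      Dv f γ O O' t n (t + i * sc (n + k)) ≤ C * SS f γ O O' k0 t n

/-- CH1.  One step inequality for the logarithmic ratio (chords: Pythagoras in the source,
triangle inequality in the target). -/
def Stmt_CH1 : Prop :=
  ∃ C : ℝ, 0 < C ∧ ∀ (ε : ℝ) (Ω : Set E3) (f : E3 → E3) (γ : ℝ → E3) (O O' : ℝ → ℕ → M3),
    0 ≤ ε → ε ≤ 1 / 1024 → Pack ε Ω f γ O O' → ∀ t ∈ Icc (-19 : ℝ) 19, ∀ n : ℕ,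
    (FF f γ t (n + 1) + FF f γ (t + sc (n + 1)) (n + 1)) / 2 - FF f γ t n
      ≤ C * ε * XX f γ O O' t n

end Pool.Mart
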