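import Mathlib

open MeasureTheory Metric Set Filter
open scoped ContDiff

namespace Pool.Mart

/-- Euclidean 3-space -/
abbrev V3 := EuclideanSpace ℝ (Fin 3)

/-- standard basis vector -/
noncomputable def bs (a : Fin 3) : V3 := EuclideanSpace.single a 1

/-- determinant of three vectors -/
def det3 (u v w : V3) : ℝ :=
  u 0 * (v 1 * w 2 - v 2 * w 1) + u 1 * (v 2 * w 0 - v 0 * w 2) + u 2 * (v 0 * w 1 - v 1 * w 0)

/-- divergence at a point in terms of the derivative -/
noncomputable def trd (T : V3 →L[ℝ] V3) : ℝ := ∑ b, (T (bs b)) b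

theorem bs_decomp (v : V3) : v = ∑ b, v b • bs b := by
  ext i
  simp [bs, Fin.sum_univ_three]
  fin_cases i <;> simp

theorem clm_apply_coord (T : V3 →L[ℝ] V3) (v : V3) (c : Fin 3) :
    (T v) c = v 0 * (T (bs 0)) c + v 1 * (T (bs 1)) c + v 2 * (T (bs 2)) c := by
  conv_lhs => rw [bs_decomp v]
  simp [Fin.sum_univ_three]

theorem integral_lineDeriv_zero {ψ ψ' : V3 → ℝ} {v : V3} (h : ∀ x, HasLineDerivAt ℝ ψ (ψ' x) x v)
    (hi : Integrable ψ) (hi' : Integrable ψ') : ∫ x, ψ' x = 0 := by
  have := integral_bilinear_hasLineDerivAt_right_eq_neg_left_of_integrable (μ := (volume : Measure V3))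
    (f := fun _ => (1:ℝ)) (f' := fun _ => 0) (g := ψ) (g' := ψ') (v := v)
    (B := ContinuousLinearMap.mul ℝ ℝ) (by simp) (by simpa using hi') (by simpa using hi)
    (fun x _ => by simpa [HasLineDerivAt] using hasDerivAt_const (0:ℝ) (1:ℝ)) (fun x _ => h x)
  simpa using this

/-- derivative of a coordinate along a line -/
theorem lineDeriv_coord {F : V3 → V3} {x v : V3} {F' : V3 →L[ℝ] V3} (h : HasFDerivAt F F' x)
    (c : Fin 3) : HasLineDerivAt ℝ (fun y => F y c) ((F' v) c) x v := by
  have h1 : HasFDerivAt (fun y => F y c) ((EuclideanSpace.proj c : V3 →L[ℝ] ℝ).comp F') x :=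
    (EuclideanSpace.proj c : V3 →L[ℝ] ℝ).hasFDerivAt.comp x h
  simpa using h1.hasLineDerivAt v

/-- line derivative of `det3` -/
theorem lineDeriv_det3 {u v w : V3 → V3} {u' v' w' : V3} {x e : V3}
    (hu : ∀ c, HasLineDerivAt ℝ (fun y => u y c) (u' c) x e)
    (hv : ∀ c, HasLineDerivAt ℝ (fun y => v y c) (v' c) x e)
    (hw : ∀ c, HasLineDerivAt ℝ (fun y => w y c) (w' c) x e) :
    HasLineDerivAt ℝ (fun y => det3 (u y) (v y) (w y))
      (det3 u' (v x) (w x) + det3 (u x) v' (w x) + det3 (u x) (v x) w') x e := by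
  unfold HasLineDerivAt at *
  have h0 := ((hu 0).mul (((hv 1).mul (hw 2)).sub ((hv 2).mul (hw 1)))).add
    ((hu 1).mul (((hv 2).mul (hw 0)).sub ((hv 0).mul (hw 2))))
  have h1 := h0.add ((hu 2).mul (((hv 0).mul (hw 1)).sub ((hv 1).mul (hw 0))))
  have e1 : (fun t : ℝ => det3 (u (x + t • e)) (v (x + t • e)) (w (x + t • e))) =
      (((fun t : ℝ => u (x + t • e) 0) * ((fun t : ℝ => v (x + t • e) 1) * (fun t : ℝ => w (x + t • e) 2)
        - (fun t : ℝ => v (x + t • e) 2) * (fun t : ℝ => w (x + t • e) 1))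
      + (fun t : ℝ => u (x + t • e) 1) * ((fun t : ℝ => v (x + t • e) 2) * (fun t : ℝ => w (x + t • e) 0)
        - (fun t : ℝ => v (x + t • e) 0) * (fun t : ℝ => w (x + t • e) 2)))
      + (fun t : ℝ => u (x + t • e) 2) * ((fun t : ℝ => v (x + t • e) 0) * (fun t : ℝ => w (x + t • e) 1)
        - (fun t : ℝ => v (x + t • e) 1) * (fun t : ℝ => w (x + t • e) 0))) := by
    funext t; simp [det3]
  rw [e1]
  refine HasDerivAt.congr_deriv h1 ?_
  simp [det3]; ring

theorem cont_det3 {X : Type*} [TopologicalSpace X] {u v w : X → V3} (hu : Continuous u)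
    (hv : Continuous v) (hw : Continuous w) : Continuous (fun y => det3 (u y) (v y) (w y)) := by
  have cu : ∀ c, Continuous (fun y => u y c) := fun c => (EuclideanSpace.proj c : V3 →L[ℝ] ℝ).continuous.comp hu
  have cv : ∀ c, Continuous (fun y => v y c) := fun c => (EuclideanSpace.proj c : V3 →L[ℝ] ℝ).continuous.comp hv
  have cw : ∀ c, Continuous (fun y => w y c) := fun c => (EuclideanSpace.proj c : V3 →L[ℝ] ℝ).continuous.comp hw
  unfold det3
  exact (((cu 0).mul (((cv 1).mul (cw 2)).sub ((cv 2).mul (cw 1)))).add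
    ((cu 1).mul (((cv 2).mul (cw 0)).sub ((cv 0).mul (cw 2))))).add
    ((cu 2).mul (((cv 0).mul (cw 1)).sub ((cv 1).mul (cw 0))))

/-- Piola identity for smooth maps and a globally smooth field. -/
theorem piola_smooth_global {g H : V3 → V3} {φ : V3 → ℝ} (hg : ContDiff ℝ 2 g) (hH : ContDiff ℝ 1 H)
    (hφ : ContDiff ℝ 1 φ) (hφc : HasCompactSupport φ) :
    ∫ x, (fderiv ℝ φ x (bs 0) * det3 (H (g x)) (fderiv ℝ g x (bs 1)) (fderiv ℝ g x (bs 2))
      + fderiv ℝ φ x (bs 1) * det3 (H (g x)) (fderiv ℝ g x (bs 2)) (fderiv ℝ g x (bs 0))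
      + fderiv ℝ φ x (bs 2) * det3 (H (g x)) (fderiv ℝ g x (bs 0)) (fderiv ℝ g x (bs 1)))
    = - ∫ x, φ x * (det3 (fderiv ℝ g x (bs 0)) (fderiv ℝ g x (bs 1)) (fderiv ℝ g x (bs 2))
        * trd (fderiv ℝ H (g x))) := by
  have hg1 : ContDiff ℝ 1 (fderiv ℝ g) := hg.fderiv_right (by norm_num)
  have hgc : Continuous g := hg.continuous
  -- first derivative fields
  set G : Fin 3 → V3 → V3 := fun a x => fderiv ℝ g x (bs a) with hG
  have hGc : ∀ a, ContDiff ℝ 1 (G a) := fun a => hg1.clm_apply contDiff_const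
  set S : Fin 3 → Fin 3 → V3 → V3 := fun a b x => fderiv ℝ (G b) x (bs a) with hS
  have hScont : ∀ a b, Continuous (S a b) := fun a b =>
    ((hGc b).continuous_fderiv (by norm_num)).clm_apply continuous_const
  have hsymm : ∀ a b x, S a b x = S b a x := by
    intro a b x
    have h2 : IsSymmSndFDerivAt ℝ g x := (hg.contDiffAt).isSymmSndFDerivAt (by simp)
    have e : ∀ a b, S a b x = fderiv ℝ (fderiv ℝ g) x (bs a) (bs b) := by
      intro a b
      have hd : HasFDerivAt (fderiv ℝ g) (fderiv ℝ (fderiv ℝ g) x) x :=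
        ((hg1.differentiable (by norm_num)) x).hasFDerivAt
      have := (hd.clm_apply (hasFDerivAt_const (bs b) x)).fderiv
      simp only [hS, hG]
      rw [this]; simp
    rw [e, e]; exact h2 _ _
  set K : Fin 3 → V3 → V3 := fun a x => fderiv ℝ H (g x) (G a x) with hK
  have hKcont : ∀ a, Continuous (K a) := fun a =>
    (((hH.continuous_fderiv (by norm_num)).comp hgc).clm_apply (hGc a).continuous)
  have hHc : Continuous (fun x => H (g x)) := hH.continuous.comp hgc
  have ldφ : ∀ a x, HasLineDerivAt ℝ φ (fderiv ℝ φ x (bs a)) x (bs a) := fun a x =>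
    ((hφ.differentiable (by norm_num)) x).hasFDerivAt.hasLineDerivAt _
  have ldG : ∀ a b x c, HasLineDerivAt ℝ (fun y => G b y c) ((S a b x) c) x (bs a) := fun a b x c =>
    lineDeriv_coord (((hGc b).differentiable (by norm_num)) x).hasFDerivAt c
  have ldH : ∀ a x c, HasLineDerivAt ℝ (fun y => H (g y) c) ((K a x) c) x (bs a) := by
    intro a x c
    have h1 : HasFDerivAt (fun y => H (g y)) ((fderiv ℝ H (g x)).comp (fderiv ℝ g x)) x :=
      (((hH.differentiable (by norm_num)) (g x)).hasFDerivAt).comp x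
        (((hg.differentiable (by norm_num)) x).hasFDerivAt)
    simpa [hK, hG] using lineDeriv_coord (v := bs a) h1 c
  -- the three products
  have key : ∀ a b c : Fin 3, ∀ x, HasLineDerivAt ℝ (fun y => φ y * det3 (H (g y)) (G b y) (G c y))
      (fderiv ℝ φ x (bs a) * det3 (H (g x)) (G b x) (G c x)
        + φ x * (det3 (K a x) (G b x) (G c x) + det3 (H (g x)) (S a b x) (G c x)
          + det3 (H (g x)) (G b x) (S a c x))) x (bs a) := by
    intro a b c x
    have h1 := lineDeriv_det3 (ldH a x) (ldG a b x) (ldG a c x)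
    have h2 := (ldφ a x)
    unfold HasLineDerivAt at *
    have h3 := h2.mul h1
    refine HasDerivAt.congr_deriv h3 ?_
    simp
  have csφ' : ∀ a, HasCompactSupport (fun x => fderiv ℝ φ x (bs a)) := fun a =>
    (hφc.fderiv (𝕜 := ℝ)).comp_left (g := fun T : V3 →L[ℝ] ℝ => T (bs a)) (by simp)
  have cφ' : ∀ a, Continuous (fun x => fderiv ℝ φ x (bs a)) := fun a =>
    (hφ.continuous_fderiv (by norm_num)).clm_apply continuous_const
  have int1 : ∀ a b c : Fin 3, Integrable (fun y => φ y * det3 (H (g y)) (G b y) (G c y)) := by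
    intro a b c
    exact (hφ.continuous.mul (cont_det3 hHc (hGc b).continuous (hGc c).continuous)).integrable_of_hasCompactSupport
      (hφc.mul_right)
  have int2 : ∀ a b c : Fin 3, Integrable (fun x => fderiv ℝ φ x (bs a) * det3 (H (g x)) (G b x) (G c x)) := by
    intro a b c
    exact ((cφ' a).mul (cont_det3 hHc (hGc b).continuous (hGc c).continuous)).integrable_of_hasCompactSupport
      ((csφ' a).mul_right)
  have int3 : ∀ a b c : Fin 3, Integrable (fun x => φ x * (det3 (K a x) (G b x) (G c x) + det3 (H (g x)) (S a b x) (G c x)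
          + det3 (H (g x)) (G b x) (S a c x))) := by
    intro a b c
    exact (hφ.continuous.mul (((cont_det3 (hKcont a) (hGc b).continuous (hGc c).continuous).add
      (cont_det3 hHc (hScont a b) (hGc c).continuous)).add
      (cont_det3 hHc (hGc b).continuous (hScont a c)))).integrable_of_hasCompactSupport
      (hφc.mul_right)
  have z : ∀ a b c : Fin 3, ∫ x, (fderiv ℝ φ x (bs a) * det3 (H (g x)) (G b x) (G c x)) =
      - ∫ x, φ x * (det3 (K a x) (G b x) (G c x) + det3 (H (g x)) (S a b x) (G c x)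
          + det3 (H (g x)) (G b x) (S a c x)) := by
    intro a b c
    have h := integral_lineDeriv_zero (key a b c) (int1 a b c) ((int2 a b c).add (int3 a b c))
    rw [integral_add (int2 a b c) (int3 a b c)] at h
    linarith
  have add3 : ∀ u v w : V3 → ℝ, Integrable u → Integrable v → Integrable w →
      ∫ x, (u x + v x + w x) = (∫ x, u x) + (∫ x, v x) + (∫ x, w x) := by
    intro u v w hu hv hw
    rw [← integral_add hu hv]
    exact integral_add (hu.add hv) hw
  rw [add3 _ _ _ (int2 0 1 2) (int2 1 2 0) (int2 2 0 1), z, z, z]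
  have := add3 _ _ _ (int3 0 1 2) (int3 1 2 0) (int3 2 0 1)
  rw [← neg_add, ← neg_add, ← this]
  congr 1
  refine integral_congr_ae (Eventually.of_forall fun x => ?_)
  simp only
  rw [hsymm 1 0 x, hsymm 2 0 x, hsymm 2 1 x]
  have k : ∀ a c, (K a x) c = (G a x) 0 * (fderiv ℝ H (g x) (bs 0)) c + (G a x) 1 * (fderiv ℝ H (g x) (bs 1)) c
      + (G a x) 2 * (fderiv ℝ H (g x) (bs 2)) c := fun a c => clm_apply_coord _ _ _
  simp only [det3, k, trd, Fin.sum_univ_three]
  ring

end Pool.Mart
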