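import Pool.Agent.Work.MP_680515_an.Norm

/-!
# MP_680515_an: interface S (one complex function in the half plane)

`ζ = r + i z`; real affine functions are `a + b (z - i r) = a + b (-I ζ)` with real `a`, `b`.
They are real on the axis `r = 0`.
-/

open MeasureTheory Set Filter Topology Complex

namespace Pool.Mart

/-- Scalar real affine function. -/
noncomputable def af (a b : ℝ) (ζ : ℂ) : ℂ := (a : ℂ) + (b : ℂ) * (-I * ζ)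

/-- The child region. -/
def Qh (h : ℝ) : Set ℂ := {ζ | h / 16 < ζ.re ∧ ζ.re < 16 * h ∧ |ζ.im| < 16 * h}

/-- The outer region. -/
def OUTR (ρ : ℝ) : Set ℂ := {ζ | ρ < ζ.re ∧ 4 < ‖ζ‖ ∧ ‖ζ‖ < 8}

/-- The strip. -/
def STR (ρ : ℝ) : Set ℂ := {ζ | ρ < ζ.re ∧ ζ.re < 2 * ρ ∧ ‖ζ‖ < 8}

/-- The whole region of integration. -/
def HE (ρ : ℝ) : Set ℂ := {ζ | ρ < ζ.re ∧ ‖ζ‖ < 8}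

/-- Cauchy transform. -/
noncomputable def cT (g : ℂ → ℂ) (ζ : ℂ) : ℂ :=
  ((Real.pi)⁻¹ : ℝ) * ∫ w, g w / (ζ - w)

/-- Reflection of a test function at the axis. -/
noncomputable def rfl' (g : ℂ → ℂ) (ζ : ℂ) : ℂ := (starRingEnd ℂ) (g (-(starRingEnd ℂ) ζ))

/-- The kernel `k = C g + C g*`. -/
noncomputable def kk (g : ℂ → ℂ) (ζ : ℂ) : ℂ := cT g ζ + cT (rfl' g) ζ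

/-- Test functions of the child region. -/
def TF (h : ℝ) (g : ℂ → ℂ) : Prop :=
  ContDiff ℝ (⊤ : ℕ∞) g ∧ HasCompactSupport g ∧ tsupport g ⊆ Qh h ∧ ∀ ζ, ‖g ζ‖ ≤ 1

/-- CTP.  Cauchy-Pompeiu formula for compactly supported smooth functions (polar coordinates
around `ζ`, `∂̄ = (1/2) e^{iφ} (∂_s + (i/s) ∂_φ)`). -/
def Stmt_CTP : Prop :=
  ∀ g : ℂ → ℂ, ContDiff ℝ (⊤ : ℕ∞) g → HasCompactSupport g → ∀ ζ : ℂ,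
    cT (dbar g) ζ = g ζ ∧ Integrable (fun w => g w / (ζ - w))

/-- CTD.  The Cauchy transform of a smooth compactly supported function is smooth and solves
`∂̄ (C g) = g` (convolution with the locally integrable kernel `1/(π w)`:
`HasCompactSupport.contDiff_convolution_right`, derivative under the convolution, `CTP`). -/
def Stmt_CTD : Prop :=
  ∀ g : ℂ → ℂ, ContDiff ℝ (⊤ : ℕ∞) g → HasCompactSupport g →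
    ContDiff ℝ (⊤ : ℕ∞) (cT g) ∧ ∀ ζ : ℂ, dbar (cT g) ζ = g ζ

/-- RFL.  Reflection. -/
def Stmt_RFL : Prop :=
  ∀ g : ℂ → ℂ, ContDiff ℝ (⊤ : ℕ∞) g → HasCompactSupport g →
    ContDiff ℝ (⊤ : ℕ∞) (rfl' g) ∧ HasCompactSupport (rfl' g) ∧
    (∀ ζ, ζ ∈ tsupport (rfl' g) → -(starRingEnd ℂ) ζ ∈ tsupport g) ∧
    (∀ ζ, cT (rfl' g) ζ = -(starRingEnd ℂ) (cT g (-(starRingEnd ℂ) ζ))) ∧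
    (∀ F : ℂ → ℂ, ∫ ζ, F (-(starRingEnd ℂ) ζ) = ∫ ζ, F ζ)

/-- KB1.  Bounds of the kernel: `|k| ≤ C h` everywhere; near the axis its real part is at most
`C r` (it vanishes for `r = 0`; there `|ζ - w| ≥ h/32` for `w` in the support). -/
def Stmt_KB1 : Prop :=
  ∃ C : ℝ, 0 < C ∧ ∀ (h : ℝ) (g : ℂ → ℂ), 0 < h → h ≤ 1 / 128 → TF h g →
    (∀ ζ, ‖kk g ζ‖ ≤ C * h) ∧ (∀ ζ, 0 ≤ ζ.re → ζ.re ≤ h / 32 → |(kk g ζ).re| ≤ C * ζ.re)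

/-- KB2.  Far field: with the moments `m0 = ∫ g`, `m1 = ∫ w g(w)`:
`1/(ζ-w) = 1/ζ + w/ζ^2 + w^2/(ζ^2 (ζ-w))`. -/
def Stmt_KB2 : Prop :=
  ∃ C : ℝ, 0 < C ∧ ∀ (h : ℝ) (g : ℂ → ℂ), 0 < h → h ≤ 1 / 128 → TF h g → ∀ ζ : ℂ, 4 ≤ ‖ζ‖ →
    ‖kk g ζ - ((2 / Real.pi : ℝ) : ℂ) * (((∫ w, g w).re : ℂ) / ζ
      + I * ((∫ w, w * g w).im : ℂ) / ζ ^ 2)‖ ≤ C * h ^ 4

/-- CUT.  Cut-off functions.  `χ0` depends on `re ζ` only, so its `∂̄` is real. -/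
def Stmt_CUT : Prop :=
  ∃ C : ℝ, 0 < C ∧ ∀ ρ : ℝ, 0 < ρ → ρ ≤ 1 → ∃ χ0 χ1 : ℂ → ℝ,
    ContDiff ℝ (⊤ : ℕ∞) χ0 ∧ ContDiff ℝ (⊤ : ℕ∞) χ1 ∧
    (∀ ζ, 0 ≤ χ0 ζ ∧ χ0 ζ ≤ 1 ∧ 0 ≤ χ1 ζ ∧ χ1 ζ ≤ 1) ∧
    (∀ ζ : ℂ, 2 * ρ ≤ ζ.re → χ0 ζ = 1) ∧ (∀ ζ : ℂ, ‖ζ‖ ≤ 4 → χ1 ζ = 1) ∧
    HasCompactSupport (fun ζ => χ0 ζ * χ1 ζ) ∧ tsupport (fun ζ => χ0 ζ * χ1 ζ) ⊆ HE ρ ∧
    (∀ ζ, ∃ x : ℝ, dbar (fun ζ => (χ0 ζ : ℂ)) ζ = (x : ℂ) ∧ |x| ≤ C / ρ ∧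
      (¬ (ρ < ζ.re ∧ ζ.re < 2 * ρ) → x = 0)) ∧
    (∀ ζ, ‖dbar (fun ζ => (χ1 ζ : ℂ)) ζ‖ ≤ C ∧
      (¬ (4 < ‖ζ‖ ∧ ‖ζ‖ < 8) → dbar (fun ζ => (χ1 ζ : ℂ)) ζ = 0)) ∧
    (∀ ζ, χ1 ζ ≠ 0 → ‖ζ‖ < 8) ∧ (∀ ζ, χ0 ζ ≠ 0 → ρ < ζ.re)

/-- SLI.  The identity: `WB` for the test function `χ0 χ1 k`, `∂̄ k = g + g*`, `χ0 χ1 (g + g*) = g`. -/
def Stmt_SLI : Prop :=
  ∀ (ρ h M : ℝ) (v : ℂ → ℂ) (g : ℂ → ℂ) (χ0 χ1 : ℂ → ℝ), 0 < ρ → 64 * ρ ≤ h → h ≤ 1 / 128 →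
    ContinuousOn v (HE ρ) → IntegrableOn v (HE ρ) → WB (HE ρ) v M → 0 ≤ M → TF h g →
    ContDiff ℝ (⊤ : ℕ∞) χ0 → ContDiff ℝ (⊤ : ℕ∞) χ1 →
    (∀ ζ, 0 ≤ χ0 ζ ∧ χ0 ζ ≤ 1 ∧ 0 ≤ χ1 ζ ∧ χ1 ζ ≤ 1) →
    (∀ ζ : ℂ, 2 * ρ ≤ ζ.re → χ0 ζ = 1) → (∀ ζ : ℂ, ‖ζ‖ ≤ 4 → χ1 ζ = 1) →
    HasCompactSupport (fun ζ => χ0 ζ * χ1 ζ) → tsupport (fun ζ => χ0 ζ * χ1 ζ) ⊆ HE ρ →
    (∀ ζ, χ1 ζ ≠ 0 → ‖ζ‖ < 8) → (∀ ζ, χ0 ζ ≠ 0 → ρ < ζ.re) →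
    ∀ B : ℝ, (∀ ζ, ‖kk g ζ‖ ≤ B) →
    ‖(∫ ζ, v ζ * g ζ) + ∫ ζ, v ζ * kk g ζ *
      (χ1 ζ * dbar (fun ζ => (χ0 ζ : ℂ)) ζ + χ0 ζ * dbar (fun ζ => (χ1 ζ : ℂ)) ζ)‖ ≤ M * B

/-- WAF.  Real (complex) affine functions are holomorphic: `∫ af ∂̄ψ = 0`. -/
def Stmt_WAF : Prop :=
  ∀ (a b : ℝ) (ψ : ℂ → ℂ), ContDiff ℝ (⊤ : ℕ∞) ψ → HasCompactSupport ψ →
    Integrable (fun ζ => af a b ζ * dbar ψ ζ) ∧ ∫ ζ, af a b ζ * dbar ψ ζ = 0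

/-- DUAL.  `L^1` norm by duality with smooth functions. -/
def Stmt_DUAL : Prop :=
  ∀ (U : Set ℂ) (w : ℂ → ℂ) (B : ℝ), IsOpen U → Bornology.IsBounded U → ContinuousOn w U →
    IntegrableOn w U →
    (∀ g : ℂ → ℂ, ContDiff ℝ (⊤ : ℕ∞) g → HasCompactSupport g → tsupport g ⊆ U →
      (∀ ζ, ‖g ζ‖ ≤ 1) → (∫ ζ, w ζ * g ζ).re ≤ B) →
    ∫ ζ in U, ‖w ζ‖ ≤ B

/-- SL.  The scalar lemma.  `a = -(2/π) Re ∫ v χ0 ∂̄χ1 / ζ`, `b = -(2/π) Re (i ∫ v χ0 ∂̄χ1/ζ^2)`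
(so that `Re ∫ (a + b(-Iζ)) g = a Re m0 + b Im m1` is minus the far field contribution of the
first two moments); for every test function `g` of `TF h`:
`Re ∫ (v - af) g ≤ M C h + C h^4 ∫_OUTR |v| + ∫_STR (|Re v| |Re k| + |Im v| |Im k|) C/ρ`. -/
def Stmt_SL : Prop :=
  ∃ C : ℝ, 0 < C ∧ ∀ (ρ h M : ℝ) (v : ℂ → ℂ), 0 < ρ → 64 * ρ ≤ h → h ≤ 1 / 128 → 0 ≤ M →
    ContinuousOn v (HE ρ) → IntegrableOn v (HE ρ) → WB (HE ρ) v M →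
    ∃ a b : ℝ, ∫ ζ in Qh h, ‖v ζ - af a b ζ‖ ≤ C * (h ^ 4 * (∫ ζ in OUTR ρ, ‖v ζ‖) + h * M
      + (∫ ζ in STR ρ, ‖v ζ‖) + (h / ρ) * ∫ ζ in STR ρ, |(v ζ).im|)

/-! ## Whitney boxes near the axis -/

/-- Whitney box, enlarged. -/
def BB (k : ℕ) (i : ℤ) : Set ℂ :=
  {ζ | (2 : ℝ)⁻¹ ^ (k + 2) < ζ.re ∧ ζ.re < 2 * (2 : ℝ)⁻¹ ^ k ∧
    |ζ.im - i * (2 : ℝ)⁻¹ ^ k| < 2 * (2 : ℝ)⁻¹ ^ k}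

/-- Whitney box, core. -/
def BC (k : ℕ) (i : ℤ) : Set ℂ :=
  {ζ | (2 : ℝ)⁻¹ ^ (k + 1) ≤ ζ.re ∧ ζ.re ≤ (2 : ℝ)⁻¹ ^ k ∧
    |ζ.im - i * (2 : ℝ)⁻¹ ^ k| ≤ (2 : ℝ)⁻¹ ^ k}

/-- Index set of the boxes of generation `k`. -/
noncomputable def IX (k : ℕ) : Finset ℤ := Finset.Icc (-(8 * 2 ^ k)) (8 * 2 ^ k)

/-- Ancestor of `i` in generation `j ≤ k`. -/
def anc (k j : ℕ) (i : ℤ) : ℤ := i / 2 ^ (k - j)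

/-- AFN.  Size of real affine functions. -/
def Stmt_AFN : Prop :=
  ∃ c : ℝ, 0 < c ∧ ∀ (a b s z0 : ℝ) (E : Set ℂ), 0 < s → MeasurableSet E →
    {ζ : ℂ | s < ζ.re ∧ ζ.re < 2 * s ∧ |ζ.im - z0| < s / 2} ⊆ E →
    IntegrableOn (af a b) E → c * (s ^ 2 * |a + b * z0| + s ^ 3 * |b|) ≤ ∫ ζ in E, ‖af a b ζ‖

/-- CHN.  Comparison of the affine approximations of two consecutive boxes, and of a box of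
generation `3` with the region `QQ` (both regions contain the square of side `s = 2^-k / 2` at
height `s` centered at `i 2^-k`, `AFN`). -/
def Stmt_CHN : Prop :=
  ∃ C : ℝ, 0 < C ∧ (∀ (v : ℂ → ℂ) (k : ℕ) (i : ℤ) (a b a' b' o o' : ℝ),
      IntegrableOn v (BB (k + 1) i) → IntegrableOn v (BB k (i / 2)) →
      8 ^ (k + 1) * (∫ ζ in BB (k + 1) i, ‖v ζ - af a b ζ‖) ≤ o →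
      8 ^ k * (∫ ζ in BB k (i / 2), ‖v ζ - af a' b' ζ‖) ≤ o' →
      |b - b'| ≤ C * (o + o') ∧
      |(a + b * (i * (2 : ℝ)⁻¹ ^ (k + 1))) - (a' + b' * (i * (2 : ℝ)⁻¹ ^ (k + 1)))|
        ≤ C * (2 : ℝ)⁻¹ ^ k * (o + o')) ∧
    (∀ (v : ℂ → ℂ) (i : ℤ) (a b a' b' o o' : ℝ), i ∈ IX 3 →
      IntegrableOn v (BB 3 i) → IntegrableOn v QQ →
      8 ^ 3 * (∫ ζ in BB 3 i, ‖v ζ - af a b ζ‖) ≤ o → (∫ ζ in QQ, ‖v ζ - af a' b' ζ‖) ≤ o' →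
      |b - b'| ≤ C * (o + o') ∧
      |(a + b * (i * (2 : ℝ)⁻¹ ^ 3)) - (a' + b' * (i * (2 : ℝ)⁻¹ ^ 3))| ≤ C * (o + o'))

/-- CHS.  Chain of ancestors: for `v` with `∫_QQ |v| ≤ o0` the approximation of the box
`(k,i)` is small. -/
def Stmt_CHS : Prop :=
  ∃ C : ℝ, 0 < C ∧ ∀ (v : ℂ → ℂ) (k0 : ℕ) (a b o : ℕ → ℤ → ℝ) (o0 : ℝ), 3 ≤ k0 →
    IntegrableOn v QQ → (∀ k ∈ Finset.Icc 3 k0, ∀ i ∈ IX k, IntegrableOn v (BB k i)) →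
    (∀ k ∈ Finset.Icc 3 k0, ∀ i ∈ IX k,
      8 ^ k * (∫ ζ in BB k i, ‖v ζ - af (a k i) (b k i) ζ‖) ≤ o k i) →
    (∫ ζ in QQ, ‖v ζ‖) ≤ o0 →
    ∀ k ∈ Finset.Icc 3 k0, ∀ i ∈ IX k,
      |b k i| ≤ C * (o0 + ∑ j ∈ Finset.Icc 3 k, o j (anc k j i)) ∧
      |a k i + b k i * (i * (2 : ℝ)⁻¹ ^ k)|
        ≤ C * (o0 + ∑ j ∈ Finset.Icc 3 k, (2 : ℝ)⁻¹ ^ j * o j (anc k j i))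

/-- BXI.  Integrals of `|v|` and `|Im v|` over a core box (`af` is at most
`|a + b i 2^-k| + 4 |b| 2^-k` there and its imaginary part is `- b r`). -/
def Stmt_BXI : Prop :=
  ∃ C : ℝ, 0 < C ∧ ∀ (v : ℂ → ℂ) (k : ℕ) (i : ℤ) (a b o : ℝ), IntegrableOn v (BB k i) →
    8 ^ k * (∫ ζ in BB k i, ‖v ζ - af a b ζ‖) ≤ o →
    (∫ ζ in BC k i, ‖v ζ‖) ≤ (8 : ℝ)⁻¹ ^ k * o
      + C * (4 : ℝ)⁻¹ ^ k * (|a + b * (i * (2 : ℝ)⁻¹ ^ k)| + (2 : ℝ)⁻¹ ^ k * |b|) ∧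
    (∫ ζ in BC k i, |(v ζ).im|) ≤ (8 : ℝ)⁻¹ ^ k * o + C * (8 : ℝ)⁻¹ ^ k * |b|

/-- COV.  The boxes cover the region near the axis. -/
def Stmt_COV : Prop :=
  ∀ k0 : ℕ, 3 ≤ k0 → (∀ ζ : ℂ, (2 : ℝ)⁻¹ ^ (k0 + 1) < ζ.re → ζ.re ≤ 1 / 8 → |ζ.im| < 8 →
      ∃ k ∈ Finset.Icc 3 k0, ∃ i ∈ IX k, ζ ∈ BC k i) ∧
    (∀ ζ ∈ STR ((2 : ℝ)⁻¹ ^ (k0 + 1)), ∃ i ∈ IX k0, ζ ∈ BC k0 i) ∧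
    (∀ k ∈ Finset.Icc 3 k0, ∀ i ∈ IX k, BB k i ⊆ HD ((2 : ℝ)⁻¹ ^ (k0 + 3))) ∧
    (∀ k, ∀ i ∈ IX k, ∀ j ≤ k, anc k j i ∈ IX j) ∧
    (∀ (f : ℤ → ℝ) (k j : ℕ), j ≤ k → (∀ i, 0 ≤ f i) →
      ∑ i ∈ IX k, f (anc k j i) ≤ 2 ^ (k - j) * ∑ i ∈ IX j, f i)

/-- SPL.  The scalar lemma with Whitney boxes (`SL` for `v - af a0 b0` with `ρ = 2^(-k0-1)`,
`CHS`, `BXI`, `COV` and summation). -/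
def Stmt_SPL : Prop :=
  ∃ C : ℝ, 0 < C ∧ ∀ (k0 : ℕ) (h M : ℝ) (v : ℂ → ℂ) (a b o : ℕ → ℤ → ℝ) (a0 b0 o0 : ℝ), 3 ≤ k0 →
    64 * (2 : ℝ)⁻¹ ^ (k0 + 1) ≤ h → h ≤ 1 / 128 → 0 ≤ M →
    ContinuousOn v (HD ((2 : ℝ)⁻¹ ^ (k0 + 3))) → IntegrableOn v (HD ((2 : ℝ)⁻¹ ^ (k0 + 3))) →
    WB (HD ((2 : ℝ)⁻¹ ^ (k0 + 3))) v M →
    (∀ k ∈ Finset.Icc 3 k0, ∀ i ∈ IX k,
      8 ^ k * (∫ ζ in BB k i, ‖v ζ - af (a k i) (b k i) ζ‖) ≤ o k i) →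
    (∫ ζ in QQ, ‖v ζ - af a0 b0 ζ‖) ≤ o0 →
    ∃ a1 b1 : ℝ, ∫ ζ in Qh h, ‖v ζ - af a1 b1 ζ‖ ≤ C * (
      h ^ 4 * (o0 + ∑ k ∈ Finset.Icc 3 k0, (8 : ℝ)⁻¹ ^ k * ∑ i ∈ IX k, o k i)
      + (2 : ℝ)⁻¹ ^ k0 * (o0 + ∑ k ∈ Finset.Icc 3 k0, (2 : ℝ)⁻¹ ^ k * ∑ i ∈ IX k, o k i) + h * M)

/-- SPV.  The version for the five modes (`SPL` for every component). -/
def Stmt_SPV : Prop :=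
  ∃ C : ℝ, 0 < C ∧ ∀ (k0 : ℕ) (h M : ℝ) (V : ℂ → C5) (a b : ℕ → ℤ → Fin 5 → ℝ) (o : ℕ → ℤ → ℝ)
    (a0 b0 : Fin 5 → ℝ) (o0 : ℝ), 3 ≤ k0 →
    64 * (2 : ℝ)⁻¹ ^ (k0 + 1) ≤ h → h ≤ 1 / 128 → 0 ≤ M →
    ContinuousOn V (HD ((2 : ℝ)⁻¹ ^ (k0 + 3))) → IntegrableOn V (HD ((2 : ℝ)⁻¹ ^ (k0 + 3))) →
    (∀ k, WB (HD ((2 : ℝ)⁻¹ ^ (k0 + 3))) (fun ζ => V ζ k) M) →
    (∀ k ∈ Finset.Icc 3 k0, ∀ i ∈ IX k,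
      8 ^ k * (∫ ζ in BB k i, ‖V ζ - aff (a k i) (b k i) ζ‖) ≤ o k i) →
    (∫ ζ in QQ, ‖V ζ - aff a0 b0 ζ‖) ≤ o0 →
    ∃ a1 b1 : Fin 5 → ℝ, ∫ ζ in Qh h, ‖V ζ - aff a1 b1 ζ‖ ≤ C * (
      h ^ 4 * (o0 + ∑ k ∈ Finset.Icc 3 k0, (8 : ℝ)⁻¹ ^ k * ∑ i ∈ IX k, o k i)
      + (2 : ℝ)⁻¹ ^ k0 * (o0 + ∑ k ∈ Finset.Icc 3 k0, (2 : ℝ)⁻¹ ^ k * ∑ i ∈ IX k, o k i) + h * M)

end Pool.Mart
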