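import Mathlib

/-!
# MP_680515_an, room R10: definitions

Local theorem on the winding map.  See PLAN.md in this folder for the complete proof.
-/

open MeasureTheory Set Filter Topology

namespace Pool.Mart

/-- Euclidean three space. -/
abbrev E3 := EuclideanSpace ℝ (Fin 3)

/-- Real three by three matrices. -/
abbrev M3 := Matrix (Fin 3) (Fin 3) ℝ

/-- Action of a matrix on a vector. -/
noncomputable def act (A : M3) (v : E3) : E3 := WithLp.toLp 2 (A.mulVec v.ofLp)

/-- Operator norm of a matrix with respect to the Euclidean norm. -/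
noncomputable def opn (A : M3) : ℝ := ‖(Matrix.toEuclideanLin A).toContinuousLinearMap‖

/-- Cofactor matrix. -/
noncomputable def cofm (A : M3) : M3 := (A.adjugate).transpose

/-- The third basis vector. -/
noncomputable def e3 : E3 := EuclideanSpace.single 2 1

/-- Distance to the third axis. -/
noncomputable def rad (x : E3) : ℝ := Real.sqrt (x 0 ^ 2 + x 1 ^ 2)

/-- The winding map `(r, theta, z) ↦ (r, 2 theta, z)` in Cartesian coordinates. -/
noncomputable def wind (x : E3) : E3 :=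
  !₂[(x 0 ^ 2 - x 1 ^ 2) / rad x, 2 * x 0 * x 1 / rad x, x 2]

/-- `A` is a weak gradient of `f` on `Ω`, locally in `L^3` (so `f ∈ W^{1,3}_loc` when `f` is
continuous): entry `i j` is the weak derivative of the component `i` in direction `j`. -/
structure WeakGrad (Ω : Set E3) (f : E3 → E3) (A : E3 → M3) : Prop where
  loc : ∀ K : Set E3, IsCompact K → K ⊆ Ω → ∀ i j : Fin 3,
    MemLp (fun x => A x i j) 3 (volume.restrict K)
  ibp : ∀ φ : E3 → ℝ, ContDiff ℝ (⊤ : ℕ∞) φ → HasCompactSupport φ → tsupport φ ⊆ Ω →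
    ∀ i j : Fin 3, ∫ x, f x i * fderiv ℝ φ x (EuclideanSpace.single j 1)
      = - ∫ x, A x i j * φ x

/-- `f` is quasiregular on `Ω` with weak gradient `A` (some finite distortion bound). -/
structure QReg (Ω : Set E3) (f : E3 → E3) (A : E3 → M3) : Prop where
  cont : ContinuousOn f Ω
  wg : WeakGrad Ω f A
  qr : ∃ K : ℝ, 1 ≤ K ∧ ∀ᵐ x ∂(volume.restrict Ω), opn (A x) ^ 3 ≤ K * (A x).det

/-- The inner distortion of `f` on `Ω` is at most `K`. -/
def InnerDist (Ω : Set E3) (A : E3 → M3) (K : ℝ) : Prop :=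
  ∀ᵐ x ∂(volume.restrict Ω), opn (cofm (A x)) ^ 3 ≤ K * (A x).det ^ 2

/-- `g` is `ε`-nearly similar at all small scales on `U`: near every point and at every small
scale it is `ε`-close to an orientation preserving similarity. -/
def NearSim (ε : ℝ) (g : E3 → E3) (U : Set E3) : Prop :=
  ∀ x ∈ U, ∃ r0 > 0, Metric.ball x (2 * r0) ⊆ U ∧ ∀ y ∈ Metric.ball x r0, ∀ r : ℝ, 0 < r → r < r0 →
    ∃ (lam : ℝ) (O : M3) (b : E3), 0 < lam ∧ O ∈ Matrix.specialOrthogonalGroup (Fin 3) ℝ ∧
      ∀ v ∈ Metric.ball y r, ‖g v - (lam • act O v + b)‖ ≤ ε * lam * r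

/-- THE FINAL THEOREM. -/
def Stmt_Final : Prop :=
  ∃ ε : ℝ, 0 < ε ∧ ∀ (Ω V : Set E3) (φ ψ : E3 → E3) (A : E3 → M3) (K : ℝ),
    IsOpen Ω → IsOpen V → (∀ x ∈ Ω, wind (ψ x) ∈ V) → NearSim ε ψ Ω → NearSim ε φ V →
    (∃ x ∈ Ω, rad (ψ x) = 0) →
    QReg Ω (fun x => φ (wind (ψ x))) A → InnerDist Ω A K → 2 ≤ K

end Pool.Mart
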