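import Pool.Agent.Work.MP_680515_an.B.AB
import Pool.Agent.Work.MP_680515_an.B.AFN
import Pool.Agent.Work.MP_680515_an.B.APX
import Pool.Agent.Work.MP_680515_an.B.BAS
import Pool.Agent.Work.MP_680515_an.B.BXI
import Pool.Agent.Work.MP_680515_an.B.CH1
import Pool.Agent.Work.MP_680515_an.B.CHA
import Pool.Agent.Work.MP_680515_an.B.CHN
import Pool.Agent.Work.MP_680515_an.B.CHS
import Pool.Agent.Work.MP_680515_an.B.CHV
import Pool.Agent.Work.MP_680515_an.B.COV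
import Pool.Agent.Work.MP_680515_an.B.CTD
import Pool.Agent.Work.MP_680515_an.B.CTP
import Pool.Agent.Work.MP_680515_an.B.CURV
import Pool.Agent.Work.MP_680515_an.B.CUT
import Pool.Agent.Work.MP_680515_an.B.CYLI
import Pool.Agent.Work.MP_680515_an.B.CYLM
import Pool.Agent.Work.MP_680515_an.B.DISP
import Pool.Agent.Work.MP_680515_an.B.DLI
import Pool.Agent.Work.MP_680515_an.B.DLO
import Pool.Agent.Work.MP_680515_an.B.DLOW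
import Pool.Agent.Work.MP_680515_an.B.DSM
import Pool.Agent.Work.MP_680515_an.B.DSPS
import Pool.Agent.Work.MP_680515_an.B.DTR
import Pool.Agent.Work.MP_680515_an.B.DUAL
import Pool.Agent.Work.MP_680515_an.B.EAV
import Pool.Agent.Work.MP_680515_an.B.ENB
import Pool.Agent.Work.MP_680515_an.B.END
import Pool.Agent.Work.MP_680515_an.B.ENER
import Pool.Agent.Work.MP_680515_an.B.ETA
import Pool.Agent.Work.MP_680515_an.B.FIN
import Pool.Agent.Work.MP_680515_an.B.FIXF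
import Pool.Agent.Work.MP_680515_an.B.FL8
import Pool.Agent.Work.MP_680515_an.B.FLC
import Pool.Agent.Work.MP_680515_an.B.FLK
import Pool.Agent.Work.MP_680515_an.B.GDN
import Pool.Agent.Work.MP_680515_an.B.GEO1
import Pool.Agent.Work.MP_680515_an.B.GEO2
import Pool.Agent.Work.MP_680515_an.B.GEO3
import Pool.Agent.Work.MP_680515_an.B.GRD
import Pool.Agent.Work.MP_680515_an.B.GROW
import Pool.Agent.Work.MP_680515_an.B.IBP2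
import Pool.Agent.Work.MP_680515_an.B.IDT
import Pool.Agent.Work.MP_680515_an.B.IMP
import Pool.Agent.Work.MP_680515_an.B.IMP1
import Pool.Agent.Work.MP_680515_an.B.IMP2
import Pool.Agent.Work.MP_680515_an.B.IMP3
import Pool.Agent.Work.MP_680515_an.B.INJS
import Pool.Agent.Work.MP_680515_an.B.KB1
import Pool.Agent.Work.MP_680515_an.B.KB2
import Pool.Agent.Work.MP_680515_an.B.LIN4
import Pool.Agent.Work.MP_680515_an.B.LINE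
import Pool.Agent.Work.MP_680515_an.B.MCB
import Pool.Agent.Work.MP_680515_an.B.MCI
import Pool.Agent.Work.MP_680515_an.B.MCP
import Pool.Agent.Work.MP_680515_an.B.MODB
import Pool.Agent.Work.MP_680515_an.B.MODP
import Pool.Agent.Work.MP_680515_an.B.MOLL
import Pool.Agent.Work.MP_680515_an.B.NRM
import Pool.Agent.Work.MP_680515_an.B.PACK
import Pool.Agent.Work.MP_680515_an.B.PIO1
import Pool.Agent.Work.MP_680515_an.B.PIOI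
import Pool.Agent.Work.MP_680515_an.B.PIOW
import Pool.Agent.Work.MP_680515_an.B.PW
import Pool.Agent.Work.MP_680515_an.B.PWB
import Pool.Agent.Work.MP_680515_an.B.PWS
import Pool.Agent.Work.MP_680515_an.B.QF
import Pool.Agent.Work.MP_680515_an.B.RADF
import Pool.Agent.Work.MP_680515_an.B.RADS
import Pool.Agent.Work.MP_680515_an.B.RENC
import Pool.Agent.Work.MP_680515_an.B.RENS
import Pool.Agent.Work.MP_680515_an.B.RFL
import Pool.Agent.Work.MP_680515_an.B.RING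
import Pool.Agent.Work.MP_680515_an.B.RINT
import Pool.Agent.Work.MP_680515_an.B.ROT
import Pool.Agent.Work.MP_680515_an.B.ROTF
import Pool.Agent.Work.MP_680515_an.B.ROTZ
import Pool.Agent.Work.MP_680515_an.B.SCL
import Pool.Agent.Work.MP_680515_an.B.SCMP
import Pool.Agent.Work.MP_680515_an.B.SHF
import Pool.Agent.Work.MP_680515_an.B.SL
import Pool.Agent.Work.MP_680515_an.B.SLI
import Pool.Agent.Work.MP_680515_an.B.SPL
import Pool.Agent.Work.MP_680515_an.B.SPV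
import Pool.Agent.Work.MP_680515_an.B.STAR
import Pool.Agent.Work.MP_680515_an.B.STB
import Pool.Agent.Work.MP_680515_an.B.SUBH
import Pool.Agent.Work.MP_680515_an.B.SUBP
import Pool.Agent.Work.MP_680515_an.B.SURJ
import Pool.Agent.Work.MP_680515_an.B.TARG
import Pool.Agent.Work.MP_680515_an.B.THREE
import Pool.Agent.Work.MP_680515_an.B.TRF
import Pool.Agent.Work.MP_680515_an.B.UABS
import Pool.Agent.Work.MP_680515_an.B.UD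
import Pool.Agent.Work.MP_680515_an.B.UX
import Pool.Agent.Work.MP_680515_an.B.VBD
import Pool.Agent.Work.MP_680515_an.B.VCO
import Pool.Agent.Work.MP_680515_an.B.WAF
import Pool.Agent.Work.MP_680515_an.B.WDB
import Pool.Agent.Work.MP_680515_an.B.WDBS
import Pool.Agent.Work.MP_680515_an.B.WGT
import Pool.Agent.Work.MP_680515_an.B.WIN1
import Pool.Agent.Work.MP_680515_an.B.WIN2

/-!
# MP_680515_an: assembly of the blocks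
-/

namespace Pool.Mart

theorem pf_SCMP : Stmt_SCMP :=
stmt_SCMP 

theorem pf_SURJ : Stmt_SURJ :=
stmt_SURJ pf_SCMP

theorem pf_INJS : Stmt_INJS :=
stmt_INJS 

theorem pf_RADS : Stmt_RADS :=
stmt_RADS pf_SCMP

theorem pf_CURV : Stmt_CURV :=
stmt_CURV pf_SCMP pf_SURJ pf_INJS pf_RADS

theorem pf_TARG : Stmt_TARG :=
stmt_TARG 

theorem pf_ROTF : Stmt_ROTF :=
stmt_ROTF 

theorem pf_FIXF : Stmt_FIXF :=
stmt_FIXF pf_ROTF

theorem pf_WIN1 : Stmt_WIN1 :=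
stmt_WIN1 

theorem pf_PACK : Stmt_PACK :=
stmt_PACK pf_CURV pf_TARG pf_FIXF pf_WIN1

theorem pf_CTP : Stmt_CTP :=
stmt_CTP 

theorem pf_CTD : Stmt_CTD :=
stmt_CTD pf_CTP

theorem pf_RFL : Stmt_RFL :=
stmt_RFL 

theorem pf_SLI : Stmt_SLI :=
stmt_SLI pf_CTD pf_RFL

theorem pf_KB1 : Stmt_KB1 :=
stmt_KB1 pf_RFL

theorem pf_KB2 : Stmt_KB2 :=
stmt_KB2 pf_RFL

theorem pf_CUT : Stmt_CUT :=
stmt_CUT 

theorem pf_DUAL : Stmt_DUAL :=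
stmt_DUAL 

theorem pf_SL : Stmt_SL :=
stmt_SL pf_SLI pf_KB1 pf_KB2 pf_CUT pf_DUAL

theorem pf_AFN : Stmt_AFN :=
stmt_AFN 

theorem pf_CHN : Stmt_CHN :=
stmt_CHN pf_AFN

theorem pf_COV : Stmt_COV :=
stmt_COV 

theorem pf_CHS : Stmt_CHS :=
stmt_CHS pf_CHN pf_COV

theorem pf_BXI : Stmt_BXI :=
stmt_BXI 

theorem pf_WAF : Stmt_WAF :=
stmt_WAF 

theorem pf_SPL : Stmt_SPL :=
stmt_SPL pf_SL pf_CHS pf_BXI pf_COV pf_WAF

theorem pf_SPV : Stmt_SPV :=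
stmt_SPV pf_SPL

theorem pf_MCB : Stmt_MCB :=
stmt_MCB 

theorem pf_CHV : Stmt_CHV :=
stmt_CHV 

theorem pf_ROTZ : Stmt_ROTZ :=
stmt_ROTZ pf_CHV

theorem pf_LINE : Stmt_LINE :=
stmt_LINE 

theorem pf_BAS : Stmt_BAS :=
stmt_BAS 

theorem pf_ROT : Stmt_ROT :=
stmt_ROT pf_BAS

theorem pf_RENC : Stmt_RENC :=
stmt_RENC pf_CHV pf_ROT

theorem pf_MCP : Stmt_MCP :=
stmt_MCP pf_MCB pf_ROTZ pf_LINE pf_RENC pf_WIN1

theorem pf_GDN : Stmt_GDN :=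
stmt_GDN pf_BAS

theorem pf_DSPS : Stmt_DSPS :=
stmt_DSPS pf_GDN pf_BAS

theorem pf_MOLL : Stmt_MOLL :=
stmt_MOLL 

theorem pf_PIOI : Stmt_PIOI :=
stmt_PIOI pf_BAS

theorem pf_APX : Stmt_APX :=
stmt_APX pf_MOLL pf_PIOI pf_BAS pf_WIN1

theorem pf_DISP : Stmt_DISP :=
stmt_DISP pf_DSPS pf_APX pf_WIN1

theorem pf_MODP : Stmt_MODP :=
stmt_MODP 

theorem pf_CYLM : Stmt_CYLM :=
stmt_CYLM 

theorem pf_CYLI : Stmt_CYLI :=
stmt_CYLI pf_CYLM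

theorem pf_MODB : Stmt_MODB :=
stmt_MODB pf_CYLI

theorem pf_VCO : Stmt_VCO :=
stmt_VCO pf_WIN1

theorem pf_MCI : Stmt_MCI :=
stmt_MCI pf_MCP pf_MCB pf_DISP pf_MODP pf_CYLI pf_MODB pf_VCO pf_WIN1

theorem pf_TRF : Stmt_TRF :=
stmt_TRF pf_MCI pf_MODP pf_VCO pf_WIN1

theorem pf_RENS : Stmt_RENS :=
stmt_RENS pf_CHV

theorem pf_GEO1 : Stmt_GEO1 :=
stmt_GEO1 pf_RENC

theorem pf_GEO2 : Stmt_GEO2 :=
stmt_GEO2 pf_RENC pf_CHV pf_WIN1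

theorem pf_SCL : Stmt_SCL :=
stmt_SCL pf_WIN1

theorem pf_GEO3 : Stmt_GEO3 :=
stmt_GEO3 pf_GEO1 pf_GEO2 pf_RENS pf_SCL pf_CHV pf_WIN1

theorem pf_SUBP : Stmt_SUBP :=
stmt_SUBP pf_RENS pf_GEO3 pf_GEO2 pf_SCL pf_CHV pf_WIN1

theorem pf_THREE : Stmt_THREE :=
stmt_THREE pf_BAS

theorem pf_QF : Stmt_QF :=
stmt_QF pf_BAS

theorem pf_STAR : Stmt_STAR :=
stmt_STAR pf_BAS pf_QF

theorem pf_AB : Stmt_AB :=
stmt_AB pf_BAS pf_QF

theorem pf_PWS : Stmt_PWS :=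
stmt_PWS pf_BAS pf_THREE pf_QF pf_STAR pf_AB

theorem pf_PWB : Stmt_PWB :=
stmt_PWB pf_BAS pf_THREE

theorem pf_PW : Stmt_PW :=
stmt_PW pf_BAS pf_THREE pf_PWS pf_PWB

theorem pf_ENB : Stmt_ENB :=
stmt_ENB pf_BAS pf_THREE

theorem pf_DLI : Stmt_DLI :=
stmt_DLI pf_PIOI pf_ENB pf_BAS pf_WIN1

theorem pf_GRD : Stmt_GRD :=
stmt_GRD pf_PW pf_DLI pf_APX pf_WIN1

theorem pf_WGTc : Stmt_WGTc :=
stmt_WGT pf_CHV

theorem pf_LIN4 : Stmt_LIN4 :=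
stmt_LIN4 pf_BAS

theorem pf_NRM : Stmt_NRM :=
stmt_NRM pf_WGTc pf_CHV pf_ROT pf_LIN4

theorem pf_DTR : Stmt_DTR :=
stmt_DTR pf_CHV pf_ROT pf_SCL pf_ENB pf_NRM pf_PIOI pf_WIN1

theorem pf_PIO1 : Stmt_PIO1 :=
stmt_PIO1 

theorem pf_PIOW : Stmt_PIOW :=
stmt_PIOW pf_MOLL pf_PIO1 pf_PIOI pf_BAS

theorem pf_RADF : Stmt_RADF :=
stmt_RADF 

theorem pf_FLC : Stmt_FLC :=
stmt_FLC pf_PIOW pf_RADF

theorem pf_FLK : Stmt_FLK :=
stmt_FLK 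

theorem pf_WIN2 : Stmt_WIN2 :=
stmt_WIN2 pf_WIN1 pf_BAS

theorem pf_RINT : Stmt_RINT :=
stmt_RINT 

theorem pf_FL8 : Stmt_FL8 :=
stmt_FL8 pf_FLC pf_FLK pf_WIN1 pf_WIN2 pf_RINT pf_PIOI pf_BAS pf_RADF

theorem pf_IDT : Stmt_IDT :=
stmt_IDT pf_PIOW pf_RADF pf_RINT pf_PIOI

theorem pf_ENER : Stmt_ENER :=
stmt_ENER pf_PIOW pf_PIOI pf_BAS pf_WIN1

theorem pf_DSM : Stmt_DSM :=
stmt_DSM pf_FL8 pf_IDT pf_ENER pf_ENB pf_PIOI pf_BAS pf_WIN1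

theorem pf_ETA : Stmt_ETA :=
stmt_ETA pf_GRD pf_DTR pf_DSM pf_NRM pf_DLI

theorem pf_IMP1 : Stmt_IMP1 :=
stmt_IMP1 pf_TRF pf_SUBP pf_RENS pf_ETA pf_NRM pf_VCO

theorem pf_VBD : Stmt_VBD :=
stmt_VBD pf_VCO pf_AFN pf_WIN1

theorem pf_IMP2 : Stmt_IMP2 :=
stmt_IMP2 pf_TRF pf_SUBP pf_RENS pf_ETA pf_NRM pf_VCO pf_VBD

theorem pf_IBP2 : Stmt_IBP2 :=
stmt_IBP2 

theorem pf_WDBS : Stmt_WDBS :=
stmt_WDBS pf_IBP2 pf_GDN pf_CYLI

theorem pf_WDB : Stmt_WDB :=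
stmt_WDB pf_WDBS pf_APX pf_PW pf_DLI pf_VCO

theorem pf_IMP3 : Stmt_IMP3 :=
stmt_IMP3 pf_WDB pf_DTR pf_DLI pf_VCO pf_NRM pf_DSM

theorem pf_IMP : Stmt_IMP :=
stmt_IMP pf_SPV pf_IMP1 pf_IMP2 pf_IMP3

theorem pf_STB : Stmt_STB :=
stmt_STB pf_MCI pf_MODP pf_VCO pf_AFN pf_WIN1 pf_MCB

theorem pf_SUBH : Stmt_SUBH :=
stmt_SUBH pf_RENS pf_GEO2 pf_SCL pf_CHV pf_WIN1

theorem pf_CHA : Stmt_CHA :=
stmt_CHA pf_STB pf_SUBH pf_RENS pf_ETA pf_NRM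

theorem pf_SHF : Stmt_SHF :=
stmt_SHF 

theorem pf_UX : Stmt_UX :=
stmt_UX pf_SHF

theorem pf_UD : Stmt_UD :=
stmt_UD pf_SHF

theorem pf_UABS : Stmt_UABS :=
stmt_UABS pf_UX pf_UD

theorem pf_RING : Stmt_RING :=
stmt_RING pf_FLC pf_FLK pf_FL8 pf_IDT pf_ENER pf_NRM pf_SCL pf_PIOI pf_ENB pf_CHV pf_ROT pf_BAS
    pf_WIN1 pf_WGTc

theorem pf_GROW : Stmt_GROW :=
stmt_GROW pf_RING pf_SCL pf_CHV pf_ROT pf_ENB pf_LIN4

theorem pf_CH1 : Stmt_CH1 :=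
stmt_CH1 pf_RENS pf_GEO2 pf_SCL pf_CHV pf_WIN1

theorem pf_EAV : Stmt_EAV :=
stmt_EAV pf_GROW pf_CH1 pf_SCL pf_SHF

theorem pf_DLOW : Stmt_DLOW :=
stmt_DLOW pf_BAS

theorem pf_DLO : Stmt_DLO :=
stmt_DLO pf_DLOW pf_PIOI pf_BAS pf_ENB pf_WIN1

theorem pf_END : Stmt_END :=
stmt_END pf_IMP pf_CHA pf_UABS pf_EAV pf_DSM pf_DLO pf_NRM pf_VBD pf_GEO2

theorem pf_Final : Stmt_Final :=
stmt_Final pf_PACK pf_END

end Pool.Mart
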