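import Pool.Agent.Work.MP_680515_an.IfaceL

/-!
# MP_680515_an: interface A (analysis: Sobolev maps, flux identity, growth)
-/

open MeasureTheory Set Filter Topology Complex

namespace Pool.Mart

/-- Jacobian matrix of a differentiable map. -/
noncomputable def jac (g : E3 → E3) (x : E3) : M3 :=
  Matrix.of fun i j => fderiv ℝ g x (EuclideanSpace.single j 1) i

/-- Gradient vector. -/
noncomputable def gradv (φ : E3 → ℝ) (x : E3) : E3 :=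
  WithLp.toLp 2 fun j => fderiv ℝ φ x (EuclideanSpace.single j 1)

/-- Divergence. -/
noncomputable def divv (H : E3 → E3) (y : E3) : ℝ :=
  ∑ i : Fin 3, fderiv ℝ H y (EuclideanSpace.single i 1) i

/-- Flux density of the solid angle form, `X = x - p`, `Y = f x - f p`. -/
noncomputable def fx (A : M3) (X Y : E3) : ℝ := cpair A ((‖Y‖ ^ 3)⁻¹ • Y) (‖X‖⁻¹ • X)

/-! ## Sobolev maps -/

/-- MOLL.  Mollification of a continuous `W^{1,3}_loc` map on a neighbourhood of a compact set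
(multiply by a cut-off or mollify with a small kernel; uniform convergence by uniform
continuity on a compact neighbourhood, `L^3` convergence of the gradients). -/
def Stmt_MOLL : Prop :=
  ∀ (Ω : Set E3) (f : E3 → E3) (A : E3 → M3), IsOpen Ω → ContinuousOn f Ω → WeakGrad Ω f A →
    ∀ K : Set E3, IsCompact K → K ⊆ Ω →
    ∃ g : ℕ → E3 → E3, (∀ n, ContDiff ℝ (⊤ : ℕ∞) (g n)) ∧ TendstoUniformlyOn g f atTop K ∧
      ∀ i j, Tendsto (fun n => ∫ x in K, |jac (g n) x i j - A x i j| ^ 3) atTop (𝓝 0)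

/-- PIO0.  The rows of the cofactor matrix are divergence free. -/
def Stmt_PIO0 : Prop :=
  ∀ (g : E3 → E3) (u : E3 → ℝ) (i : Fin 3), ContDiff ℝ (⊤ : ℕ∞) g → ContDiff ℝ 1 u →
    HasCompactSupport u →
    ∫ x, ∑ j, cofm (jac g x) i j * fderiv ℝ u x (EuclideanSpace.single j 1) = 0

/-- PIO1.  Piola identity for smooth maps (apply `PIO0` to `u_i = φ * (H ∘ g)_i` and
`∑_j cof_ij ∂_j g_k = det δ_ik`). -/
def Stmt_PIO1 : Prop :=
  ∀ (g H : E3 → E3) (φ : E3 → ℝ) (U : Set E3), ContDiff ℝ (⊤ : ℕ∞) g → IsOpen U →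
    ContDiffOn ℝ 1 H U → ContDiff ℝ 1 φ → HasCompactSupport φ → (∀ x ∈ tsupport φ, g x ∈ U) →
    ∫ x, cpair (jac g x) (H (g x)) (gradv φ x)
      = - ∫ x, φ x * ((jac g x).det * divv H (g x))

/-- PIOW.  Piola identity for continuous `W^{1,3}_loc` maps (from `MOLL`, `PIO1`): cofactors
converge in `L^{3/2}`, determinants in `L^1`, `H ∘ g_n` uniformly. -/
def Stmt_PIOW : Prop :=
  ∀ (Ω : Set E3) (f : E3 → E3) (A : E3 → M3), IsOpen Ω → ContinuousOn f Ω → WeakGrad Ω f A →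
    ∀ (H : E3 → E3) (φ : E3 → ℝ) (U : Set E3), IsOpen U → ContDiffOn ℝ 1 H U →
    ContDiff ℝ 1 φ → HasCompactSupport φ → tsupport φ ⊆ Ω → (∀ x ∈ tsupport φ, f x ∈ U) →
    ∫ x, cpair (A x) (H (f x)) (gradv φ x) = - ∫ x, φ x * ((A x).det * divv H (f x))

/-- PIOI.  Integrability of the integrands of `PIOW`. -/
def Stmt_PIOI : Prop :=
  ∀ (Ω : Set E3) (f : E3 → E3) (A : E3 → M3), IsOpen Ω → ContinuousOn f Ω → WeakGrad Ω f A →
    ∀ K : Set E3, IsCompact K → K ⊆ Ω →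
    IntegrableOn (fun x => (A x).det) K ∧ IntegrableOn (fun x => opn (A x) ^ 3) K ∧
    IntegrableOn (fun x => opn (A x) ^ 2) K ∧
    (∀ (H b : E3 → E3), ContinuousOn H K → ContinuousOn b K →
      IntegrableOn (fun x => cpair (A x) (H x) (b x)) K)

/-- RADF.  Radial functions: gradient of `η(|x - p|)` and divergence of the two fields. -/
def Stmt_RADF : Prop :=
  (∀ (η : ℝ → ℝ) (p : E3) (r1 R : ℝ), 0 ≤ r1 → ContDiff ℝ 1 η → HasCompactSupport η →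
    tsupport η ⊆ Ioo r1 R →
    ContDiff ℝ 1 (fun x : E3 => η ‖x - p‖) ∧ HasCompactSupport (fun x : E3 => η ‖x - p‖) ∧
    tsupport (fun x : E3 => η ‖x - p‖) ⊆ {x | r1 < ‖x - p‖ ∧ ‖x - p‖ < R} ∧
    ∀ x : E3, gradv (fun x : E3 => η ‖x - p‖) x = deriv η ‖x - p‖ • (‖x - p‖⁻¹ • (x - p))) ∧
  (∀ q : E3, ContDiffOn ℝ 1 (fun y : E3 => (‖y - q‖ ^ 3)⁻¹ • (y - q)) {q}ᶜ ∧
    ContDiffOn ℝ 1 (fun y : E3 => (Real.log ‖y - q‖ * (‖y - q‖ ^ 3)⁻¹) • (y - q)) {q}ᶜ ∧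
    ∀ y : E3, y ≠ q → divv (fun y : E3 => (‖y - q‖ ^ 3)⁻¹ • (y - q)) y = 0 ∧
      divv (fun y : E3 => (Real.log ‖y - q‖ * (‖y - q‖ ^ 3)⁻¹) • (y - q)) y = (‖y - q‖ ^ 3)⁻¹) ∧
  (∀ y q : E3, divv (fun y : E3 => y - q) y = 3)

/-- RINT.  Integrals of radial functions over `E3`. -/
def Stmt_RINT : Prop :=
  ∀ (h : ℝ → ℝ) (r1 R : ℝ), 0 ≤ r1 → Continuous h → HasCompactSupport h → tsupport h ⊆ Ioo r1 R →
    ∫ X : E3, h ‖X‖ = 4 * Real.pi * ∫ r, h r * r ^ 2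

/-- WGT.  Weak gradients under similarities: `F X = c' • O'ᵀ (f (p + l • O X) - q)`. -/
def Stmt_WGT : Prop :=
  ∀ (Ω : Set E3) (f : E3 → E3) (A : E3 → M3) (p q : E3) (l c' : ℝ) (O O' : M3), IsOpen Ω → 0 < l →
    O ∈ Matrix.specialOrthogonalGroup (Fin 3) ℝ → WeakGrad Ω f A →
    WeakGrad {X | p + l • act O X ∈ Ω} (fun X => c' • act O' (f (p + l • act O X) - q))
      (fun X => (c' * l) • (O' * A (p + l • act O X) * O))

/-- CHV.  Change of variables for similarities. -/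
def Stmt_CHV : Prop :=
  ∀ (h : E3 → ℝ) (p : E3) (l : ℝ) (O : M3), 0 < l → O ∈ Matrix.specialOrthogonalGroup (Fin 3) ℝ →
    (∫ X, h (p + l • act O X) = (l ^ 3)⁻¹ * ∫ x, h x) ∧
    (∀ v : E3, ‖act O v‖ = ‖v‖) ∧ (∀ v : E3, act O (act O.transpose v) = v) ∧
    (∀ v : E3, act O.transpose (act O v) = v) ∧
    (∀ P : E3 → Prop, (∀ᵐ x ∂volume, P x) → ∀ᵐ X ∂volume, P (p + l • act O X))

/-! ## The winding map -/

/-- WIN1.  Elementary properties of the winding map. -/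
def Stmt_WIN1 : Prop :=
  (∀ X : E3, ‖wind X‖ = ‖X‖) ∧ (∀ X : E3, rad (wind X) = rad X) ∧ (∀ X : E3, wind X 2 = X 2) ∧
  (∀ X Y : E3, ‖wind X - wind Y‖ ≤ 2 * ‖X - Y‖) ∧
  (∀ (s : ℝ) (X : E3), 0 ≤ s → wind (s • X) = s • wind X) ∧
  (∀ (s : ℝ) (X : E3), wind (X + s • e3) = wind X + s • e3) ∧
  (∀ (ζ : ℂ) (θ : ℝ), 0 ≤ ζ.re → wind (cyl ζ θ) = cyl ζ (2 * θ)) ∧
  (∀ (ζ : ℂ) (θ : ℝ), 0 ≤ ζ.re → rad (cyl ζ θ) = ζ.re ∧ ‖cyl ζ θ‖ = ‖ζ‖) ∧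
  (∀ s : ℝ, wind (s • e3) = s • e3)

/-- WIN2.  The winding map is a Sobolev map; its Jacobian is bounded; flux density `2/|X|^2`.
(Components of `wind` are Lipschitz: Mathlib `LipschitzWith.integral_lineDeriv_mul_eq`; the axis is
a null set.) -/
def Stmt_WIN2 : Prop :=
  WeakGrad univ wind (jac wind) ∧ (∀ᵐ X : E3, opn (jac wind X) ≤ 4) ∧
  (∀ X : E3, 0 < rad X → fx (jac wind X) X (wind X) = 2 / ‖X‖ ^ 2)

/-! ## Energy and flux -/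

/-- ENER.  Caccioppoli: `∫ η^3 |A|^3 ≤ 4 ∫ η^3 det ≤ C (∫ η^3 |A|^3)^{2/3}`
(`PIOW` with `H y = y`, `φ = η(|X|)^3`). -/
def Stmt_ENER : Prop :=
  ∃ C : ℝ, 0 < C ∧ ∀ (ε : ℝ) (F : E3 → E3) (A : E3 → M3), ε ≤ 1 → Nm ε F A →
    IntegrableOn (fun X => opn (A X) ^ 3) (Metric.ball 0 62) ∧
    ∫ X in Metric.ball (0 : E3) 62, opn (A X) ^ 3 ≤ C

/-- FLC.  The flux does not depend on the radius (`PIOW` with the divergence free field). -/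
def Stmt_FLC : Prop :=
  ∀ (Ω : Set E3) (f : E3 → E3) (A : E3 → M3) (p : E3) (r1 R : ℝ), IsOpen Ω → ContinuousOn f Ω →
    WeakGrad Ω f A → 0 ≤ r1 → {x : E3 | r1 < ‖x - p‖ ∧ ‖x - p‖ < R} ⊆ Ω →
    (∀ x, r1 < ‖x - p‖ → ‖x - p‖ < R → f x ≠ f p) →
    ∀ η : ℝ → ℝ, ContDiff ℝ 1 η → HasCompactSupport η → tsupport η ⊆ Ioo r1 R →
      ∫ x, deriv η ‖x - p‖ * fx (A x) (x - p) (f x - f p) = 0

/-- FLK.  A functional on test functions which vanishes on derivatives is a multiple of the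
integral. -/
def Stmt_FLK : Prop :=
  ∀ (r1 R : ℝ) (L : (ℝ → ℝ) → ℝ), 0 ≤ r1 → r1 < R →
    (∀ h k : ℝ → ℝ, Continuous h → Continuous k → tsupport h ⊆ Ioo r1 R → tsupport k ⊆ Ioo r1 R →
      HasCompactSupport h → HasCompactSupport k → ∀ c : ℝ, L (fun r => h r + c * k r) = L h + c * L k) →
    (∀ η : ℝ → ℝ, ContDiff ℝ 1 η → HasCompactSupport η → tsupport η ⊆ Ioo r1 R →
      L (deriv η) = 0) →
    ∃ Φ : ℝ, ∀ h : ℝ → ℝ, Continuous h → HasCompactSupport h → tsupport h ⊆ Ioo r1 R →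
      L h = Φ * ∫ r, h r

/-- FL8.  The flux of a normalised map is `8 π`: on `(ρ, 60)` the flux is constant (`FLC`,
`FLK`); glue `F` with `wind`: `F1 = (1 - χ) F + χ wind`, `χ = χ(|X|)` smooth, `0` for `|X| ≤ 20`,
`1` for `|X| ≥ 30`, weak gradient `(1-χ) A + χ jac wind + (wind - F) ⊗ ∇χ`; `F1 ≠ 0`; its flux
is the flux of `F` near radius `10` and the flux of `wind` near radius `50`, which is `8 π`
(`WIN2`, `RINT`). -/
def Stmt_FL8 : Prop :=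
  ∀ (ρ ε : ℝ) (F : E3 → E3) (A : E3 → M3), 0 < ρ → ρ ≤ 1 → ε ≤ ρ / 16 → Nm ε F A →
    ∀ h : ℝ → ℝ, Continuous h → HasCompactSupport h → tsupport h ⊆ Ioo ρ 60 →
      ∫ X, h ‖X‖ * fx (A X) X (F X) = 8 * Real.pi * ∫ r, h r

/-- IDT.  The exact identity. -/
def Stmt_IDT : Prop :=
  ∀ (r1 R : ℝ) (F : E3 → E3) (A : E3 → M3), 0 ≤ r1 → r1 < R →
    ContinuousOn F (Metric.ball 0 R) → WeakGrad (Metric.ball 0 R) F A →
    (∀ X, r1 < ‖X‖ → ‖X‖ < R → F X ≠ 0) → F 0 = 0 →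
    (∀ h : ℝ → ℝ, Continuous h → HasCompactSupport h → tsupport h ⊆ Ioo r1 R →
      ∫ X, h ‖X‖ * fx (A X) X (F X) = 8 * Real.pi * ∫ r, h r) →
    ∀ η : ℝ → ℝ, ContDiff ℝ 1 η → HasCompactSupport η → tsupport η ⊆ Ioo r1 R →
      ∫ X, η ‖X‖ * (dfc (A X) X (F X) / ‖X‖ ^ 3)
        = -(2 / 3) * ∫ X, deriv η ‖X‖ * fx (A X) X (F X) * Real.log (‖F X‖ / ‖X‖)

/-- DSM.  The defect of a normalised map is small (`FL8`, `IDT` with a cut-off `η`,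
`|log(|F X|/|X|)| ≤ 4 ε/ρ` on the ring, `ENER`). -/
def Stmt_DSM : Prop :=
  ∀ ρ : ℝ, 0 < ρ → ρ ≤ 1 → ∃ C : ℝ, 0 < C ∧ ∀ (ε : ℝ) (F : E3 → E3) (A : E3 → M3), 0 ≤ ε →
    ε ≤ ρ / 64 → Nm ε F A → 0 ≤ DD ρ F A ∧ DD ρ F A ≤ C * ε

/-- DLO.  Lower bound of the defect if the inner distortion is smaller than `2` (`IfaceL.DLOW`
pointwise; integrability on the ring from `PIOI`, `Y ≠ 0` from closeness). -/
def Stmt_DLO : Prop :=
  ∀ K ρ : ℝ, 1 ≤ K → K < 2 → 0 < ρ → ρ ≤ 1 → ∃ c : ℝ, 0 < c ∧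
    ∀ (ε : ℝ) (F : E3 → E3) (A : E3 → M3), 0 ≤ ε → ε ≤ ρ / 64 → Nm ε F A →
      InnerDist (Metric.ball 0 64) A K → c ≤ DD ρ F A

/-! ## Packages -/

/-- NRM.  The systems of a package are normalised maps. -/
def Stmt_NRM : Prop :=
  ∀ (ε : ℝ) (Ω : Set E3) (f : E3 → E3) (A : E3 → M3) (γ : ℝ → E3) (O O' : ℝ → ℕ → M3) (K : ℝ),
    IsOpen Ω → QReg Ω f A → InnerDist Ω A K → K ≤ 2 → Pack ε Ω f γ O O' →
    ∀ t ∈ Icc (-20 : ℝ) 20, ∀ n, Nm ε (nF f γ O O' t n) (nA f A γ O O' t n) ∧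
      InnerDist (Metric.ball 0 64) (nA f A γ O O' t n) K

/-- RING.  Integrated identity at the point `γ t` between the scales `0` and `M`.
Proof: `F x = f (γ t + x) - f (γ t)` (or the system `(t,0)`); it does not vanish off `0`
(closeness at all scales); the flux is `8 π` for all radii (`FLC`, `FLK` and `FL8` at scale `0`);
`IDT` with `η = 1` between `len M` and `40 len 0`, `η'` supported in `(len M/2, len M)` and
`(40 len 0, 50 len 0)`; on these two rings `log(|Y|/|X|)` is `-FF t M`, `-FF t 0` up to a constant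
and `∫ |η'| |fx| ≤ C` by `ENER` in the systems `(t, M)` and `(t, 0)`. -/
def Stmt_RING : Prop :=
  ∃ C : ℝ, 0 < C ∧ ∀ (ε : ℝ) (Ω : Set E3) (f : E3 → E3) (A : E3 → M3) (γ : ℝ → E3)
    (O O' : ℝ → ℕ → M3), 0 ≤ ε → ε ≤ 1 / 1024 → IsOpen Ω → QReg Ω f A → InnerDist Ω A 2 →
    Pack ε Ω f γ O O' → ∀ t ∈ Icc (-20 : ℝ) 20, ∀ M : ℕ,
    IntegrableOn (fun x => dfc (A x) (x - γ t) (f x - f (γ t)) / ‖x - γ t‖ ^ 3)
      {x | len γ t M < ‖x - γ t‖ ∧ ‖x - γ t‖ < 40 * len γ t 0} ∧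
    ∫ x in {x | len γ t M < ‖x - γ t‖ ∧ ‖x - γ t‖ < 40 * len γ t 0},
      dfc (A x) (x - γ t) (f x - f (γ t)) / ‖x - γ t‖ ^ 3
        ≤ (16 * Real.pi / 3) * (FF f γ t M - FF f γ t 0) + C

/-- SCL.  Consecutive scales and neighbours (elementary consequences of `Pack`). -/
def Stmt_SCL : Prop :=
  ∀ (ε : ℝ) (Ω : Set E3) (f : E3 → E3) (γ : ℝ → E3) (O O' : ℝ → ℕ → M3), 0 ≤ ε → ε ≤ 1 / 1024 →
    Pack ε Ω f γ O O' → ∀ t ∈ Icc (-20 : ℝ) 20, ∀ n : ℕ,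
    (∀ (s : ℝ) (k : ℕ), |s| ≤ 40 → t + s * sc n ∈ Icc (-20 : ℝ) 20 → k ≤ 20 →
      |len γ (t + s * sc n) (n + k) - sc k * len γ t n| ≤ 2 * ε * len γ t n ∧
      |len (f ∘ γ) (t + s * sc n) (n + k) - sc k * len (f ∘ γ) t n| ≤ 8 * ε * len (f ∘ γ) t n) ∧
    |FF f γ t (n + 1) - FF f γ t n| ≤ 100 * ε ∧ |FF f γ t n - FF f γ 0 n| ≤ 200 * ε * (n + 1)

/-- GROW.  Sum of the defects over the scales.  `DD ρ` of the system `n` is
`(len n)^-3 ∫ dfc dx` over the ring `ρ len n < |x - γ t| < 40 len n` (`CHV`, `ROT`), at most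
`40^3` times the integral of `dfc / |x - γ t|^3` over this ring; rings whose indices differ by at
least `m(ρ)` are disjoint (`SCL`: `len (n+1) ≤ 0.51 len n`), all are in the ring of `RING` with
`M = N + m`; `FF M - FF N ≤ 100 ε m`; the integrand is nonnegative. -/
def Stmt_GROW : Prop :=
  ∀ ρ : ℝ, 0 < ρ → ρ ≤ 1 → ∃ C C' : ℝ, 0 < C ∧ 0 < C' ∧ ∀ (ε : ℝ) (Ω : Set E3) (f : E3 → E3) (A : E3 → M3)
    (γ : ℝ → E3) (O O' : ℝ → ℕ → M3), 0 ≤ ε → ε ≤ ρ / 1024 → IsOpen Ω → QReg Ω f A →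
    InnerDist Ω A 2 → Pack ε Ω f γ O O' → ∀ t ∈ Icc (-20 : ℝ) 20, ∀ N : ℕ,
    ∑ n ∈ Finset.range N, DD ρ (nF f γ O O' t n) (nA f A γ O O' t n)
      ≤ C * (FF f γ t N - FF f γ t 0) + C'

/-- DTR.  The sum of the two defects is controlled by the defects of the two base points
(`IfaceL.ROT` and `CHV`: the same physical point in the systems `(t, n)` and `(t + sc n, n)`;
`X - e3` in the system `(t,n)` is `(len/len') O^T O'` times the coordinate in the system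
`(t + sc n, n)`, and `len/len'` is within `3 ε` of `1` by `SCL`; nonnegativity from
`IfaceL.ENB`). -/
def Stmt_DTR : Prop :=
  ∀ ρ : ℝ, 0 < ρ → ρ ≤ 1 → ∃ C : ℝ, 0 < C ∧ ∀ (ε : ℝ) (Ω : Set E3) (f : E3 → E3) (A : E3 → M3)
    (γ : ℝ → E3) (O O' : ℝ → ℕ → M3), 0 ≤ ε → ε ≤ ρ / 1024 → IsOpen Ω → QReg Ω f A →
    InnerDist Ω A 2 → Pack ε Ω f γ O O' → ∀ t ∈ Icc (-19 : ℝ) 19, ∀ n : ℕ,
    IntegrableOn (fun X => dl (nF f γ O O' t n) (nA f A γ O O' t n) X)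
      {X | ρ < rad X ∧ ‖X‖ < 32} ∧
    ∫ X in {X : E3 | ρ < rad X ∧ ‖X‖ < 32}, dl (nF f γ O O' t n) (nA f A γ O O' t n) X
      ≤ C * (DD (ρ / 2) (nF f γ O O' t n) (nA f A γ O O' t n)
        + DD (ρ / 2) (nF f γ O O' (t + sc n) n) (nA f A γ O O' (t + sc n) n))

end Pool.Mart
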