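import Pool.Agent.Work.MP_680515_an.Norm

/-!
# MP_680515_an: interface L (linear algebra of the defect)

All statements are about one matrix `A` and vectors of `ℝ^3`.  Write `B = cofm A`,
`N = opn B`, `τ = det A / N`.  Facts used all the time:
`(cofm A)ᵀ * A = det A • 1`, `A * (cofm A)ᵀ = det A • 1`, `‖act M v‖ ≤ opn M * ‖v‖`,
`‖act B v‖ ≤ N ‖v‖`, `cpair A H b = ⟨H, act (cofm A) b⟩`.
-/

open MeasureTheory Set Filter Topology Complex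

namespace Pool.Mart

/-- The quadratic form `N^2 |ξ|^2 - |B ξ|^2 ≥ 0`, `B = cofm A`, `N = opn B`. -/
noncomputable def qf (A : M3) (ξ : E3) : ℝ :=
  opn (cofm A) ^ 2 * ‖ξ‖ ^ 2 - ‖act (cofm A) ξ‖ ^ 2

/-- `τ = det A / |cof A|`. -/
noncomputable def tau (A : M3) : ℝ := A.det / opn (cofm A)

/-- BAS.  Basic facts. -/
def Stmt_BAS : Prop :=
  (∀ (M : M3) (v : E3), ‖act M v‖ ≤ opn M * ‖v‖) ∧
  (∀ (M : M3) (c : ℝ), 0 ≤ c → (∀ v : E3, ‖act M v‖ ≤ c * ‖v‖) → opn M ≤ c) ∧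
  (∀ (A : M3) (H b : E3), cpair A H b = inner ℝ H (act (cofm A) b)) ∧
  (∀ (A : M3) (v w : E3), inner ℝ (act A v) (act (cofm A) w) = A.det * inner ℝ v w) ∧
  (∀ (A : M3) (v : E3), act A (act (cofm A).transpose v) = A.det • v) ∧
  (∀ (M : M3), opn (cofm M) ≤ opn M ^ 2) ∧
  (∀ (A : M3), cofm (cofm A) = A.det • A)

/-- LIN4.  `|cof A|^3 ≤ 2 det^2` and some outer distortion bound give `|A|^3 ≤ 4 det`.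
Proof: if `det A = 0` then `opn A = 0`.  If `det A > 0` (it cannot be negative since
`0 ≤ opn A ^ 3 ≤ K det`), `det * opn A = opn (cofm (cofm A)) ≤ opn (cofm A)^2`, cube it. -/
def Stmt_LIN4 : Prop :=
  ∀ (A : M3) (K : ℝ), 1 ≤ K → opn A ^ 3 ≤ K * A.det → opn (cofm A) ^ 3 ≤ 2 * A.det ^ 2 → Good A

/-- ROT.  Invariance under rotations and scalings.  (`adjugate` of a product; for
`O ∈ SO(3)`: `O.adjugate = Oᵀ`.) -/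
def Stmt_ROT : Prop :=
  ∀ (A O O' : M3) (c l l' : ℝ), 0 < c → 0 < l → 0 < l' → c = l / l' →
    O ∈ Matrix.specialOrthogonalGroup (Fin 3) ℝ → O' ∈ Matrix.specialOrthogonalGroup (Fin 3) ℝ →
    (Good A → Good (c • (O'.transpose * A * O))) ∧
    (∀ X Y : E3, dfc (c • (O'.transpose * A * O)) (l⁻¹ • act O.transpose X)
        (l'⁻¹ • act O'.transpose Y) = dfc A X Y) ∧
    opn (cofm (c • (O'.transpose * A * O))) = c ^ 2 * opn (cofm A) ∧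
    (c • (O'.transpose * A * O)).det = c ^ 3 * A.det ∧
    opn (c • (O'.transpose * A * O)) = c * opn A

/-- THREE.  The defect is a sum of three nonnegative terms.  `s > 0`, `b`, `y` unit vectors,
`δ = (2/3) det A / s^3 + 2/3 - cpair A y b / s^2`.  With `β = N/(2 s^2)`, `j = det A/(2 s^3)`:
`δ = (4/3)(j - β^{3/2}) + (2/3)(√β - 1)^2 (2√β + 1) + (N - cpair)/s^2`, and `Good A` gives
`β^3 ≤ j^2`. -/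
def Stmt_THREE : Prop :=
  ∀ (A : M3) (b y : E3) (s δ : ℝ), Good A → 0 < s → ‖b‖ = 1 → ‖y‖ = 1 →
    δ = (2 / 3) * A.det / s ^ 3 + 2 / 3 - cpair A y b / s ^ 2 →
    0 ≤ δ ∧ opn (cofm A) - cpair A y b ≤ δ * s ^ 2 ∧
    (Real.sqrt (opn (cofm A) / (2 * s ^ 2)) - 1) ^ 2 ≤ (3 / 2) * δ ∧
    A.det / (2 * s ^ 3) - Real.sqrt (opn (cofm A) / (2 * s ^ 2)) ^ 3 ≤ (3 / 4) * δ

/-- DLOW.  Inner distortion at most `K ≤ 2` gives a lower bound of the defect: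
`cpair A y b ≤ |cof A| ≤ (K det^2)^{1/3} = (K/2)^{1/3} (2 det^2)^{1/3}` and Young. -/
def Stmt_DLOW : Prop :=
  ∀ K : ℝ, 1 ≤ K → K < 2 → ∃ c : ℝ, 0 < c ∧ ∀ (A : M3) (X Y : E3), 0 ≤ A.det →
    opn (cofm A) ^ 3 ≤ K * A.det ^ 2 → X ≠ 0 → Y ≠ 0 → c ≤ dfc A X Y

/-- QF.  `qf` is a nonnegative quadratic form bounded by `N^2 |ξ|^2`. -/
def Stmt_QF : Prop :=
  ∀ (A : M3), (∀ ξ : E3, 0 ≤ qf A ξ ∧ qf A ξ ≤ opn (cofm A) ^ 2 * ‖ξ‖ ^ 2) ∧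
    (∀ (ξ ξ' : E3) (α β : ℝ), Real.sqrt (qf A (α • ξ + β • ξ'))
      ≤ |α| * Real.sqrt (qf A ξ) + |β| * Real.sqrt (qf A ξ'))

/-- STAR.  With `H = N^2 - BᵀB` (`0 ≤ H ≤ N^2`), `AᵀA BᵀB = det^2`:
`N^2 ⟨Aξ, Aξ'⟩ = det^2 ⟨ξ, ξ'⟩ + N^{-2} (det^2 ⟨Hξ, ξ'⟩ + ⟨A H ξ, A H ξ'⟩)`,
`|⟨Hξ,ξ'⟩| ≤ √(q(ξ) q(ξ'))`, `|Hξ|^2 ≤ N^2 q(ξ)`, `|A| ≤ 2 τ` (from `Good A`:
`τ^3 ≥ det/2 ≥ |A|^3/8`). -/
def Stmt_STAR : Prop :=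
  ∀ (A : M3), Good A → 0 < A.det → ∀ ξ ξ' : E3,
    |inner ℝ (act A ξ) (act A ξ') - tau A ^ 2 * inner ℝ ξ ξ'|
      ≤ 5 * tau A ^ 2 / opn (cofm A) ^ 2 * (Real.sqrt (qf A ξ) * Real.sqrt (qf A ξ'))

/-- AB.  If `cpair A y b ≥ N - η` for unit vectors then `qf A b ≤ 2 N η` and `A b` is close to
`τ y`.  Proof: `u = B b / N`, `|u| ≤ 1`, `⟨u,y⟩ ≥ 1 - η/N`, so `|u - y|^2 ≤ 2 η/N`;
`A Bᵀ B b = det B b`, hence `A b = τ u + N^{-2} A H b`. -/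
def Stmt_AB : Prop :=
  ∀ (A : M3) (b y : E3) (η : ℝ), Good A → 0 < A.det → ‖b‖ = 1 → ‖y‖ = 1 → 0 ≤ η →
    opn (cofm A) - η ≤ cpair A y b →
    qf A b ≤ 2 * opn (cofm A) * η ∧
      ‖act A b - tau A • y‖ ≤ 3 * tau A * Real.sqrt (2 * η / opn (cofm A)) ∧
      opn A ≤ 2 * tau A

/-- PWS.  Pointwise lemma, small defect.  `δ = dfc A X Y + dfc A (X-e3) (Y-e3) ≤ κ`.
Proof: `p = 0` and `p = e3`; `THREE` with `s = |Y-p|/|X-p|` gives `N/(2s^2)` and `det/(2s^3)`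
close to `1` up to `C √δ`; so `τ = s (1 + O(√δ))` for both base points; `AB` gives
`act A (X - p) = (Y - p) + O(√δ)`; subtract: `act A e3 = e3 + O(√δ)`.
`X = rad X • er X + X 2 • e3`, `Y = rad Y • er Y + Y 2 • e3`, so
`rad X • act A (er X) = rad Y • er Y + (Y 2 - X 2) • e3 + O(√δ)`.
`STAR` (with `qf ≤ C δ` on the span of `X`, `X - e3`, i.e. of `er X`, `e3`; `rad X > ρ`):
`|A er|^2 - |A e3|^2 = O(δ)`, `⟨A er, A e3⟩ = O(δ)`; hence `(Y 2 - X 2) = O(√δ)`,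
`rad Y - rad X = O(√δ)`, `A er X = er Y + O(√δ)`; `et X` is orthogonal to both: `STAR` gives
`⟨A et, A er⟩, ⟨A et, A e3⟩ = O(√δ)`, so `⟨er Y, A et⟩, ⟨e3, A et⟩ = O(√δ)`.
Finally `gr + I gz = (⟨er Y, A er⟩ - ⟨e3, A e3⟩) + i (⟨e3, A er⟩ + ⟨er Y, A e3⟩)` and with
`A er = er Y + p`, `A e3 = e3 + q`: `|A er|^2 - |A e3|^2 = 2 (⟨p, er Y⟩ - ⟨q, e3⟩) + |p|^2 - |q|^2`,
`⟨A er, A e3⟩ = ⟨p, e3⟩ + ⟨q, er Y⟩ + ⟨p,q⟩`. -/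
def Stmt_PWS : Prop :=
  ∀ ρ : ℝ, 0 < ρ → ρ ≤ 1 → ∃ κ C : ℝ, 0 < κ ∧ 0 < C ∧ ∀ (A : M3) (X Y : E3), Good A →
    ρ < rad X → ‖X‖ < 32 → ‖Y - wind X‖ ≤ ρ / 16 →
    dfc A X Y + dfc A (X - e3) (Y - e3) ≤ κ →
    ‖gr A X Y + I * gz A X Y‖ ≤ C * (dfc A X Y + dfc A (X - e3) (Y - e3)) ∧
    ‖gr A X Y‖ ^ 2 + ‖gz A X Y‖ ^ 2 + ‖gt A X Y‖ ^ 2
      ≤ C * (dfc A X Y + dfc A (X - e3) (Y - e3))

/-- PWB.  Pointwise lemma, large defect: `|A|^2 ≤ C (1 + δ)` since `dfc ≥ det/(6 s^3) - C`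
(the ratios `‖X - p‖/‖Y - p‖` are bounded above and below). -/
def Stmt_PWB : Prop :=
  ∀ ρ κ : ℝ, 0 < ρ → ρ ≤ 1 → 0 < κ → ∃ C : ℝ, 0 < C ∧ ∀ (A : M3) (X Y : E3), Good A →
    ρ < rad X → ‖X‖ < 32 → ‖Y - wind X‖ ≤ ρ / 16 →
    κ ≤ dfc A X Y + dfc A (X - e3) (Y - e3) →
    ‖gr A X Y + I * gz A X Y‖ ≤ C * (dfc A X Y + dfc A (X - e3) (Y - e3)) ∧
    ‖gr A X Y‖ ^ 2 + ‖gz A X Y‖ ^ 2 + ‖gt A X Y‖ ^ 2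
      ≤ C * (dfc A X Y + dfc A (X - e3) (Y - e3))

/-- PW.  Pointwise lemma: from `PWS` and `PWB`; also nonnegativity of the defects. -/
def Stmt_PW : Prop :=
  ∀ ρ : ℝ, 0 < ρ → ρ ≤ 1 → ∃ C : ℝ, 0 < C ∧ ∀ (A : M3) (X Y : E3), Good A →
    ρ < rad X → ‖X‖ < 32 → ‖Y - wind X‖ ≤ ρ / 16 →
    0 ≤ dfc A X Y ∧ 0 ≤ dfc A (X - e3) (Y - e3) ∧
    ‖gr A X Y + I * gz A X Y‖ ≤ C * (dfc A X Y + dfc A (X - e3) (Y - e3)) ∧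
    ‖gr A X Y‖ ^ 2 + ‖gz A X Y‖ ^ 2 + ‖gt A X Y‖ ^ 2
      ≤ C * (dfc A X Y + dfc A (X - e3) (Y - e3))

/-- ENB.  The defect controls the size of the matrix: `|A|^3 ≤ C (1 + dfc)`, and conversely
`dfc ≤ C (1 + |A|^3)`, if `X`, `Y` have comparable norms. -/
def Stmt_ENB : Prop :=
  ∀ c : ℝ, 0 < c → ∃ C : ℝ, 0 < C ∧ ∀ (A : M3) (X Y : E3), Good A → X ≠ 0 →
    c * ‖X‖ ≤ ‖Y‖ → c * ‖Y‖ ≤ ‖X‖ →
    0 ≤ dfc A X Y ∧ opn A ^ 3 ≤ C * (1 + dfc A X Y) ∧ dfc A X Y ≤ C * (1 + opn A ^ 3)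

end Pool.Mart
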