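import Pool.Agent.Work.MP_680515_an.IfaceA
import Pool.Agent.Work.MP_680515_an.IfaceS
import Pool.Agent.Work.MP_680515_an.IfaceM

/-!
# MP_680515_an: interface U (improvement step, dyadic averages, end of the proof)
-/

open MeasureTheory Set Filter Topology Complex

namespace Pool.Mart

/-- Radius parameter of the defect used with Whitney depth `k0`. -/
noncomputable def rs (k0 : ℕ) : ℝ := (2 : ℝ)⁻¹ ^ (k0 + 9)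

/-- Dyadic average over `[0,1)`. -/
noncomputable def avg (N : ℕ) (g : ℝ → ℝ) : ℝ :=
  (2 : ℝ)⁻¹ ^ N * ∑ j ∈ Finset.range (2 ^ N), g (j * sc N)

/-- VBD.  The distance of the modes to the real affine functions is at most `C ε`; a near
minimiser exists and is small (`VCO`; `AFN` with `s = 1`, `z0 = 0`, componentwise). -/
def Stmt_VBD : Prop :=
  ∃ C κ : ℝ, 0 < C ∧ 0 < κ ∧ ∀ (ε : ℝ) (F : E3 → E3) (A : E3 → M3), 0 ≤ ε → ε ≤ κ → Nm ε F A →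
    (∀ a b : Fin 5 → ℝ, IntegrableOn (fun ζ => vv F ζ - aff a b ζ) QQ ∧
      dd F ≤ ∫ ζ in QQ, ‖vv F ζ - aff a b ζ‖) ∧ 0 ≤ dd F ∧ dd F ≤ C * ε ∧
    (∀ δ : ℝ, 0 < δ → δ ≤ ε → ∃ a b : Fin 5 → ℝ,
      (∫ ζ in QQ, ‖vv F ζ - aff a b ζ‖) ≤ dd F + δ ∧ en a ≤ C * ε ∧ en b ≤ C * ε)

/-- ETA.  The gradient of `G` of the systems of a package is small away from the axis
(`NRM`, `GRD`, `DTR` with the same `ρ`, `DSM` with `ρ / 2`). -/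
def Stmt_ETA : Prop :=
  ∀ ρ : ℝ, 0 < ρ → ρ ≤ 1 → ∃ C κ : ℝ, 0 < C ∧ 0 < κ ∧
    ∀ (ε : ℝ) (Ω : Set E3) (f : E3 → E3) (A : E3 → M3) (γ : ℝ → E3) (O O' : ℝ → ℕ → M3),
      0 ≤ ε → ε ≤ κ → IsOpen Ω → QReg Ω f A → InnerDist Ω A 2 → Pack ε Ω f γ O O' →
    ∀ t ∈ Icc (-19 : ℝ) 19, ∀ n : ℕ,
      ∫ X in RG ρ, grd (nF f γ O O' t n) (nA f A γ O O' t n) X ≤ C * Real.sqrt ε

/-- SUBP.  The dyadic subsystems satisfy the hypotheses of part M with `m = C * SS`.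
(`GEO3` for both base points, `GEO2` for `SS ≤ C ε`, `RENS`, `Pack.line`.) -/
def Stmt_SUBP : Prop :=
  ∀ k0 : ℕ, ∃ C κ : ℝ, 0 < C ∧ 0 < κ ∧
    ∀ (ε : ℝ) (Ω : Set E3) (f : E3 → E3) (γ : ℝ → E3) (O O' : ℝ → ℕ → M3),
      0 ≤ ε → ε ≤ κ → Pack ε Ω f γ O O' →
    ∀ t ∈ Icc (0 : ℝ) 1, ∀ n : ℕ, 1 ≤ n → ∀ k ∈ Finset.Icc 1 k0, ∀ i : ℤ, |i| ≤ 8 * 2 ^ k →
      Sub ((2 : ℝ)⁻¹ ^ (k0 + 1)) ε (C * SS f γ O O' k0 t n) (nF f γ O O' t n)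
        (nX γ O t n (γ (t + i * sc (n + k))))
        (nX γ O t n (γ (t + i * sc (n + k) + sc (n + k))))
        ((O t n).transpose * O (t + i * sc (n + k)) (n + k))
        ((O' t n).transpose * O' (t + i * sc (n + k)) (n + k)) ∧
      ‖nX γ O t n (γ (t + i * sc (n + k))) - (i * (2 : ℝ)⁻¹ ^ k) • e3‖ ≤ C * ε ∧
      |‖nX γ O t n (γ (t + i * sc (n + k) + sc (n + k))) - nX γ O t n (γ (t + i * sc (n + k)))‖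
        - (2 : ℝ)⁻¹ ^ k| ≤ C * ε ∧
      0 ≤ SS f γ O O' k0 t n ∧ SS f γ O O' k0 t n ≤ C * ε ∧
      nX γ O t n (γ t) = 0

/-- SUBH.  The two halves satisfy the hypotheses of part M with `m = 3 * XX` (`GEO2`, `RENS`,
`Pack.line`).  The point `nX γ O t n (γ (t + sc (n + 1)))` is the common base point. -/
def Stmt_SUBH : Prop :=
  ∃ κ : ℝ, 0 < κ ∧
    ∀ (ε : ℝ) (Ω : Set E3) (f : E3 → E3) (γ : ℝ → E3) (O O' : ℝ → ℕ → M3),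
      0 ≤ ε → ε ≤ κ → Pack ε Ω f γ O O' → ∀ t ∈ Icc (0 : ℝ) 1, ∀ n : ℕ,
      Sub (2 / 5) ε (3 * XX f γ O O' t n) (nF f γ O O' t n) 0
        (nX γ O t n (γ (t + sc (n + 1))))
        ((O t n).transpose * O t (n + 1)) ((O' t n).transpose * O' t (n + 1)) ∧
      Sub (2 / 5) ε (3 * XX f γ O O' t n) (nF f γ O O' t n)
        (nX γ O t n (γ (t + sc (n + 1)))) e3
        ((O t n).transpose * O (t + sc (n + 1)) (n + 1))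
        ((O' t n).transpose * O' (t + sc (n + 1)) (n + 1)) ∧
      ‖nX γ O t n (γ (t + sc (n + 1))) - (1 / 2 : ℝ) • e3‖ ≤ 2 * ε ∧
      0 ≤ XX f γ O O' t n ∧ XX f γ O O' t n ≤ 20 * ε ∧
      nX γ O t n (γ t) = 0 ∧ nX γ O t n (γ (t + sc n)) = e3 ∧
      t + sc (n + 1) + sc (n + 1) = t + sc n

/-- IMP1.  Transfer to the Whitney boxes: `TRF` (first part, `E2 = QQ`) for the subsystem
`(t + i sc (n+k), n+k)` (`SUBP`, `RENS`, `ETA` with `ρ = 2^-(k0+7)`); the image of `QQ` contains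
`BB k i`; `8^k λ^3 ≤ 2`. -/
def Stmt_IMP1 : Prop :=
  ∀ k0 : ℕ, ∃ C κ : ℝ, 0 < C ∧ 0 < κ ∧
    ∀ (ε : ℝ) (Ω : Set E3) (f : E3 → E3) (A : E3 → M3) (γ : ℝ → E3) (O O' : ℝ → ℕ → M3),
      0 ≤ ε → ε ≤ κ → IsOpen Ω → QReg Ω f A → InnerDist Ω A 2 → Pack ε Ω f γ O O' →
    ∀ t ∈ Icc (0 : ℝ) 1, ∀ n : ℕ, 1 ≤ n → ∀ k ∈ Finset.Icc 3 k0, ∀ i ∈ IX k,
    ∀ (a2 b2 : Fin 5 → ℝ) (δ : ℝ),
      (∫ ζ in QQ, ‖vv (nF f γ O O' (t + i * sc (n + k)) (n + k)) ζ - aff a2 b2 ζ‖) ≤ δ →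
      ∃ a1 b1 : Fin 5 → ℝ, 8 ^ k * (∫ ζ in BB k i, ‖vv (nF f γ O O' t n) ζ - aff a1 b1 ζ‖)
        ≤ 2 * δ + C * Real.sqrt ε * SS f γ O O' k0 t n

/-- IMP2.  Transfer to the child: `TRF` (second part, `E2 = QQ`) for the subsystem
`(t, n + k1)` (`SUBP` with `i = 0`, `k = k1`); the image of `QQ` is in `Qh (2^-k1)`. -/
def Stmt_IMP2 : Prop :=
  ∀ k0 k1 : ℕ, 1 ≤ k1 → k1 ≤ k0 → ∃ C κ : ℝ, 0 < C ∧ 0 < κ ∧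
    ∀ (ε : ℝ) (Ω : Set E3) (f : E3 → E3) (A : E3 → M3) (γ : ℝ → E3) (O O' : ℝ → ℕ → M3),
      0 ≤ ε → ε ≤ κ → IsOpen Ω → QReg Ω f A → InnerDist Ω A 2 → Pack ε Ω f γ O O' →
    ∀ t ∈ Icc (0 : ℝ) 1, ∀ n : ℕ, 1 ≤ n → ∀ a1 b1 : Fin 5 → ℝ,
      dd (nF f γ O O' t (n + k1)) ≤ 2 * 8 ^ k1 *
          (∫ ζ in Qh ((2 : ℝ)⁻¹ ^ k1), ‖vv (nF f γ O O' t n) ζ - aff a1 b1 ζ‖)
        + C * Real.sqrt ε * SS f γ O O' k0 t n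

/-- IMP3.  The weak Cauchy-Riemann inequality for the systems of a package (`NRM`, `WDB` with
`ρ = 2^-(k0+3)`, `DLI`, `DTR` with `ρ = 2 * rs k0`, `VCO`, `DSM`). -/
def Stmt_IMP3 : Prop :=
  ∀ k0 : ℕ, ∃ C κ : ℝ, 0 < C ∧ 0 < κ ∧
    ∀ (ε : ℝ) (Ω : Set E3) (f : E3 → E3) (A : E3 → M3) (γ : ℝ → E3) (O O' : ℝ → ℕ → M3),
      0 ≤ ε → ε ≤ κ → IsOpen Ω → QReg Ω f A → InnerDist Ω A 2 → Pack ε Ω f γ O O' →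
    ∀ t ∈ Icc (0 : ℝ) 1, ∀ n : ℕ,
      ContinuousOn (vv (nF f γ O O' t n)) (HD ((2 : ℝ)⁻¹ ^ (k0 + 3))) ∧
      IntegrableOn (vv (nF f γ O O' t n)) (HD ((2 : ℝ)⁻¹ ^ (k0 + 3))) ∧
      0 ≤ DD (rs k0) (nF f γ O O' t n) (nA f A γ O O' t n) ∧
      0 ≤ DD (rs k0) (nF f γ O O' (t + sc n) n) (nA f A γ O O' (t + sc n) n) ∧
      ∀ k : Fin 5, WB (HD ((2 : ℝ)⁻¹ ^ (k0 + 3))) (fun ζ => vv (nF f γ O O' t n) ζ k)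
        (C * (DD (rs k0) (nF f γ O O' t n) (nA f A γ O O' t n)
          + DD (rs k0) (nF f γ O O' (t + sc n) n) (nA f A γ O O' (t + sc n) n)))

/-- IMP.  The improvement step.  `pa t n`, `pb t n` are any real affine approximations of the
modes of the system `(t, n)`, with errors `dt t n`.  Proof: `SPV` for `V = vv (nF t n)`,
`h = 2^-k1`, `M = C (DD + DD')` (`IMP3`), `o k i = 2 dt + C √ε SS` (`IMP1`), `o0 = dt t n`, and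
`IMP2` for the left side; `8^k1 h^4 = 2^-k1`. -/
def Stmt_IMP : Prop :=
  ∃ C1 : ℝ, 0 < C1 ∧ ∀ k0 k1 : ℕ, 3 ≤ k0 → 64 * (2 : ℝ)⁻¹ ^ (k0 + 1) ≤ (2 : ℝ)⁻¹ ^ k1 →
    (2 : ℝ)⁻¹ ^ k1 ≤ 1 / 128 → ∃ C2 κ : ℝ, 0 < C2 ∧ 0 < κ ∧
    ∀ (ε : ℝ) (Ω : Set E3) (f : E3 → E3) (A : E3 → M3) (γ : ℝ → E3) (O O' : ℝ → ℕ → M3)
      (pa pb : ℝ → ℕ → Fin 5 → ℝ) (dt : ℝ → ℕ → ℝ), 0 < ε → ε ≤ κ → IsOpen Ω → QReg Ω f A →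
      InnerDist Ω A 2 → Pack ε Ω f γ O O' →
      (∀ t ∈ Icc (-9 : ℝ) 10, ∀ n,
        (∫ ζ in QQ, ‖vv (nF f γ O O' t n) ζ - aff (pa t n) (pb t n) ζ‖) ≤ dt t n) →
    ∀ t ∈ Icc (0 : ℝ) 1, ∀ n : ℕ, 1 ≤ n →
      dd (nF f γ O O' t (n + k1)) ≤ C1 * (
        (2 : ℝ)⁻¹ ^ k1 * (dt t n + ∑ k ∈ Finset.Icc 3 k0, (8 : ℝ)⁻¹ ^ k *
          ∑ i ∈ IX k, dt (t + i * sc (n + k)) (n + k))
        + 8 ^ k1 * (2 : ℝ)⁻¹ ^ k0 * (dt t n + ∑ k ∈ Finset.Icc 3 k0, (2 : ℝ)⁻¹ ^ k *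
          ∑ i ∈ IX k, dt (t + i * sc (n + k)) (n + k)))
      + C2 * (DD (rs k0) (nF f γ O O' t n) (nA f A γ O O' t n)
        + DD (rs k0) (nF f γ O O' (t + sc n) n) (nA f A γ O O' (t + sc n) n))
      + C2 * Real.sqrt ε * SS f γ O O' k0 t n

/-- CHA.  Stability inequalities between consecutive scales (`STB` for the two halves, `SUBH`,
`RENS`, `NRM`, `ETA` with `ρ = 1/160`; first conclusion of `STB` for `(0, M)`, second conclusion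
for `(M, e3)`; for the third inequality the second conclusion for `(0, M)`,
`dev x (F x) ≤ 4 en (da F x)`; `da F 0 = 0`, `da F e3 = 0`; `λ ≤ 3/5`). -/
def Stmt_CHA : Prop :=
  ∃ C1 κ : ℝ, 0 < C1 ∧ 0 < κ ∧
    ∀ (ε : ℝ) (Ω : Set E3) (f : E3 → E3) (A : E3 → M3) (γ : ℝ → E3) (O O' : ℝ → ℕ → M3)
      (pa pb : ℝ → ℕ → Fin 5 → ℝ) (dt : ℝ → ℕ → ℝ), 0 < ε → ε ≤ κ → IsOpen Ω → QReg Ω f A →
      InnerDist Ω A 2 → Pack ε Ω f γ O O' →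
      (∀ t ∈ Icc (-9 : ℝ) 10, ∀ n, en (pb t n) ≤ 1 ∧
        (∫ ζ in QQ, ‖vv (nF f γ O O' t n) ζ - aff (pa t n) (pb t n) ζ‖) ≤ dt t n) →
    ∀ t ∈ Icc (0 : ℝ) 1, ∀ n : ℕ,
      en (pa t n) ≤ 3 / 5 * en (pa t (n + 1)) + C1 * (dt t n + dt t (n + 1))
        + C1 * Real.sqrt ε * XX f γ O O' t n ∧
      en (pa t n + pb t n) ≤ 3 / 5 * en (pa (t + sc (n + 1)) (n + 1) + pb (t + sc (n + 1)) (n + 1))
        + C1 * (dt t n + dt (t + sc (n + 1)) (n + 1)) + C1 * Real.sqrt ε * XX f γ O O' t n ∧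
      XX f γ O O' t n ≤ C1 * (en (pa t n) + en (pa t n + pb t n) + en (pa t (n + 1))
        + en (pa t (n + 1) + pb t (n + 1)) + dt t n + dt t (n + 1))

/-- SHF.  Dyadic averages of shifted functions. -/
def Stmt_SHF : Prop :=
  ∀ (N k : ℕ) (i : ℤ) (g : ℝ → ℝ) (G : ℝ), k ≤ N → |(i : ℝ) * sc k| ≤ 9 →
    (∀ t ∈ Icc (-9 : ℝ) 10, 0 ≤ g t ∧ g t ≤ G) →
    avg N (fun t => g (t + i * sc k)) ≤ avg N g + |(i : ℝ) * sc k| * G ∧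
    avg N g ≤ avg N (fun t => g (t + i * sc k)) + |(i : ℝ) * sc k| * G

/-- EAV.  Average of the sum of the defects: `GROW` at the grid points, `CH1` and `SCL` for the
edge terms: `avg (FF N - FF 0) ≤ C ε ∑ avg XX + C`. -/
def Stmt_EAV : Prop :=
  ∀ ρ : ℝ, 0 < ρ → ρ ≤ 1 → ∃ C κ : ℝ, 0 < C ∧ 0 < κ ∧
    ∀ (ε : ℝ) (Ω : Set E3) (f : E3 → E3) (A : E3 → M3)
    (γ : ℝ → E3) (O O' : ℝ → ℕ → M3), 0 ≤ ε → ε ≤ κ → IsOpen Ω → QReg Ω f A →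
    InnerDist Ω A 2 → Pack ε Ω f γ O O' → ∀ N N' : ℕ, N + 1 ≤ N' →
    ∑ n ∈ Finset.range N, avg N' (fun t => DD ρ (nF f γ O O' t n) (nA f A γ O O' t n))
      ≤ C * (1 + ε * ∑ n ∈ Finset.range N, avg N' (fun t => XX f γ O O' t n))

/-- The system of inequalities for five nonnegative functions. -/
structure USeq (C1 C2 e c : ℝ) (k0 k1 : ℕ) (D d X P R : ℝ → ℕ → ℝ) : Prop where
  bd : ∀ t ∈ Icc (-9 : ℝ) 10, ∀ n, (0 ≤ D t n ∧ D t n ≤ 1) ∧ (0 ≤ d t n ∧ d t n ≤ 1) ∧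
    (0 ≤ X t n ∧ X t n ≤ 1) ∧ (0 ≤ P t n ∧ P t n ≤ 1) ∧ (0 ≤ R t n ∧ R t n ≤ 1)
  e1 : ∀ N N' : ℕ, N + 1 ≤ N' → ∑ n ∈ Finset.range N, avg N' (fun t => D t n)
    ≤ C2 * (1 + e * ∑ n ∈ Finset.range N, avg N' (fun t => X t n))
  e2 : ∀ t ∈ Icc (0 : ℝ) 1, ∀ n : ℕ, 1 ≤ n → d t (n + k1) ≤ C1 * (
        (2 : ℝ)⁻¹ ^ k1 * (d t n + ∑ k ∈ Finset.Icc 3 k0, (8 : ℝ)⁻¹ ^ k *
          ∑ i ∈ IX k, d (t + i * sc (n + k)) (n + k))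
        + 8 ^ k1 * (2 : ℝ)⁻¹ ^ k0 * (d t n + ∑ k ∈ Finset.Icc 3 k0, (2 : ℝ)⁻¹ ^ k *
          ∑ i ∈ IX k, d (t + i * sc (n + k)) (n + k)))
      + C2 * (D t n + D (t + sc n) n)
      + C2 * e * (∑ j ∈ Finset.range (k0 + 2), ∑ i ∈ Finset.Icc (-(12 * 2 ^ j) : ℤ) (12 * 2 ^ j),
          X (t + i * sc (n + j)) (n - 1 + j)) + sc n
  e3 : ∀ t ∈ Icc (0 : ℝ) 1, ∀ n : ℕ, P t n ≤ 3 / 5 * P t (n + 1) + C1 * (d t n + d t (n + 1))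
        + C1 * e * X t n
  e4 : ∀ t ∈ Icc (0 : ℝ) 1, ∀ n : ℕ, R t n ≤ 3 / 5 * R (t + sc (n + 1)) (n + 1)
        + C1 * (d t n + d (t + sc (n + 1)) (n + 1)) + C1 * e * X t n
  e5 : ∀ t ∈ Icc (0 : ℝ) 1, ∀ n : ℕ,
        X t n ≤ C1 * (P t n + R t n + P t (n + 1) + R t (n + 1) + d t n + d t (n + 1))
  e6 : ∀ t ∈ Icc (0 : ℝ) 1, ∀ n : ℕ, c ≤ D t n

/-- UX.  Sum of `e3`, `e4`, `e5` over `n < N` (averages, `SHF`). -/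
def Stmt_UX : Prop :=
  ∀ C1 : ℝ, 0 < C1 → ∃ C3 e0 : ℝ, 0 < C3 ∧ 0 < e0 ∧
    ∀ (C2 e c : ℝ) (k0 k1 : ℕ) (D d X P R : ℝ → ℕ → ℝ), 0 ≤ e → e ≤ e0 →
    USeq C1 C2 e c k0 k1 D d X P R → ∀ N N' : ℕ, N + 1 ≤ N' →
    ∑ n ∈ Finset.range N, avg N' (fun t => X t n)
      ≤ C3 * (1 + ∑ n ∈ Finset.range N, avg N' (fun t => d t n))

/-- UD.  Sum of `e2` over `1 ≤ n < N` (averages, `SHF`; the edges sum up to a constant). -/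
def Stmt_UD : Prop :=
  ∃ C4 : ℝ, 0 < C4 ∧ ∀ (C1 C2 e c : ℝ) (k0 k1 : ℕ) (D d X P R : ℝ → ℕ → ℝ), 0 < C1 → 0 < C2 →
    0 ≤ e → e ≤ 1 → 3 ≤ k0 → k1 ≤ k0 → USeq C1 C2 e c k0 k1 D d X P R →
    ∀ N N' : ℕ, N + k0 + 2 ≤ N' →
    ∑ n ∈ Finset.range N, avg N' (fun t => d t n)
      ≤ C4 * C1 * ((2 : ℝ)⁻¹ ^ k1 + 8 ^ k1 * (2 : ℝ)⁻¹ ^ k0 * k0)
          * (∑ n ∈ Finset.range N, avg N' (fun t => d t n) + k0 + 4)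
        + 2 * C2 * (∑ n ∈ Finset.range N, avg N' (fun t => D t n) + 4)
        + C2 * e * 32 ^ (k0 + 2) * (∑ n ∈ Finset.range N, avg N' (fun t => X t n) + k0 + 4)
        + k1 + 4

/-- UABS.  The system of inequalities is impossible for a suitable choice of the constants. -/
def Stmt_UABS : Prop :=
  ∀ C1 : ℝ, 0 < C1 → ∃ k0 k1 : ℕ, 3 ≤ k0 ∧ 64 * (2 : ℝ)⁻¹ ^ (k0 + 1) ≤ (2 : ℝ)⁻¹ ^ k1 ∧
    (2 : ℝ)⁻¹ ^ k1 ≤ 1 / 128 ∧ ∀ C2 : ℝ, 0 < C2 → ∃ e0 : ℝ, 0 < e0 ∧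
    ∀ (e c : ℝ) (D d X P R : ℝ → ℕ → ℝ), 0 ≤ e → e ≤ e0 → 0 < c →
      ¬ USeq C1 C2 e c k0 k1 D d X P R

/-- END.  Packages with small `ε` have inner distortion at least `2`.
Proof: suppose `K < 2`; constants from `IMP`, `CHA`, then `k0 k1` from `UABS`, then `EAV` with
`ρ = rs k0`, then `ε`.  `D t n = DD (rs k0) ..`, `d t n = dt t n = dd + sc n`-near minimum,
`X = XX`, `P = en pa`, `R = en (pa + pb)`, `e = √ε`; `DSM`, `VBD`, `GEO2` give the bounds, `DLO` the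
lower bound. -/
def Stmt_END : Prop :=
  ∃ ε0 : ℝ, 0 < ε0 ∧ ∀ (Ω : Set E3) (f : E3 → E3) (A : E3 → M3) (γ : ℝ → E3)
    (O O' : ℝ → ℕ → M3) (K : ℝ), IsOpen Ω → QReg Ω f A → InnerDist Ω A K →
    Pack ε0 Ω f γ O O' → 2 ≤ K

end Pool.Mart
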