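import Pool.Agent.Work.MP_680515_an.IfaceA

/-!
# MP_680515_an: interface W (cylindrical coordinates, weak Cauchy-Riemann inequality for the modes,
displacement inequality)
-/

open MeasureTheory Set Filter Topology Complex

namespace Pool.Mart

/-- Half plane coordinate `r + i z` of a point. -/
noncomputable def hp (X : E3) : ℂ := ⟨rad X, X 2⟩

/-- Closed region away from the axis. -/
def KR (ρ R : ℝ) : Set E3 := {X | ρ ≤ rad X ∧ ‖X‖ ≤ R}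

/-- Open region away from the axis. -/
def RG (ρ : ℝ) : Set E3 := {X | ρ < rad X ∧ ‖X‖ < 32}

/-- Size of the gradient of `G`. -/
noncomputable def grd (F : E3 → E3) (A : E3 → M3) (X : E3) : ℝ :=
  ‖gr (A X) X (F X)‖ + ‖gz (A X) X (F X)‖ + ‖gt (A X) X (F X)‖

/-- Rotation about the third axis. -/
noncomputable def rotz (α : ℝ) : M3 :=
  !![Real.cos α, -Real.sin α, 0; Real.sin α, Real.cos α, 0; 0, 0, 1]

/-- Cylindrical region of the second system. -/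
def CY : Set E3 := {Y | 1 / 16 < rad Y ∧ rad Y < 16 ∧ |Y 2| < 16}

/-! ## Cylindrical coordinates -/

/-- CYLM.  Cylindrical coordinates as a statement on measures.  Proof: volume preserving
equivalence of `E3` with `(ℝ × ℝ) × ℝ`, `lintegral_comp_polarCoord_symm` for every `z` (Tonelli);
the angle runs over `(0, 2π)` instead of `(-π, π)`: `cyl ζ θ` is the image of `cyl ζ (θ - π)`
under the volume preserving map `diag(-1, -1, 1)`.  (`Measure.ext_of_lintegral` or `Measure.ext`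
on measurable sets.) -/
def Stmt_CYLM : Prop :=
  Continuous (fun p : ℂ × ℝ => cyl p.1 p.2) ∧
  Measure.map (fun p : ℂ × ℝ => cyl p.1 p.2)
    (((volume.restrict {ζ : ℂ | 0 < ζ.re}).withDensity fun ζ => ENNReal.ofReal ζ.re).prod
      (volume.restrict (Ioo (0 : ℝ) (2 * Real.pi)))) = (volume : Measure E3)

/-- CYLI.  Integrals over `U × (0, 2π)`, `U ⊆ {r ≥ ρ}` (from `CYLM`: the density `r` is at least
`ρ` on `U`; `hp (cyl ζ θ) = ζ` for `ζ.re > 0`). -/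
def Stmt_CYLI : Prop :=
  ∀ (ρ : ℝ) (U : Set ℂ) (h : E3 → ℂ), 0 < ρ → MeasurableSet U → (∀ ζ ∈ U, ρ ≤ ζ.re) →
    IntegrableOn h {X | hp X ∈ U} →
    IntegrableOn (fun p : ℂ × ℝ => h (cyl p.1 p.2)) (U ×ˢ Ioc (0 : ℝ) (2 * Real.pi)) ∧
    ∫ p in U ×ˢ Ioc (0 : ℝ) (2 * Real.pi), ‖h (cyl p.1 p.2)‖
      ≤ ρ⁻¹ * ∫ X in {X | hp X ∈ U}, ‖h X‖

/-- MODB.  `L^1` bound of the modes (`CYLI` and Fubini; `|kap| ≤ 1`, `‖cst k‖ = 1`, so
`‖modes h ζ‖ ≤ √5/(2π) ∫ |h (cyl ζ θ)| dθ`). -/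
def Stmt_MODB : Prop :=
  ∀ (ρ : ℝ) (U : Set ℂ) (h : E3 → ℂ), 0 < ρ → MeasurableSet U → (∀ ζ ∈ U, ρ ≤ ζ.re) →
    IntegrableOn h {X | hp X ∈ U} →
    IntegrableOn (modes h) U ∧
    ∫ ζ in U, ‖modes h ζ‖ ≤ 5 * ρ⁻¹ * ∫ X in {X | hp X ∈ U}, ‖h X‖

/-- VCO.  The modes of a normalised map are continuous and of size `ε`
(`|gg X (F X)| ≤ |rad (F X) - rad (wind X)| + |F X 2 - wind X 2| ≤ 2 ε`, `‖cyl ζ θ‖ = ‖ζ‖`,
continuity of parametric integrals over `[0, 2π]`). -/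
def Stmt_VCO : Prop :=
  ∀ (ε : ℝ) (F : E3 → E3) (A : E3 → M3), 0 ≤ ε → Nm ε F A →
    ContinuousOn (vv F) {ζ | 0 ≤ ζ.re ∧ ‖ζ‖ < 64} ∧
    (∀ ζ : ℂ, 0 ≤ ζ.re → ‖ζ‖ < 64 → ‖vv F ζ‖ ≤ 6 * ε) ∧
    (∀ ρ : ℝ, 0 < ρ → IntegrableOn (vv F) (HD ρ)) ∧ IntegrableOn (vv F) QQ

/-! ## Derivatives of `G` for smooth maps -/

/-- GDN.  Chain rule: `G X = gg X (g X)` for a smooth map `g`.  The derivative of `rad` at `Y`
(`rad Y > 0`) is `v ↦ ⟨er Y, v⟩`; `v = ⟨er X, v⟩ er X + v 2 e3 + ⟨et X, v⟩ et X`. -/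
def Stmt_GDN : Prop :=
  (∀ (g : E3 → E3) (X : E3), ContDiff ℝ (⊤ : ℕ∞) g → 0 < rad X → 0 < rad (g X) →
    ContDiffAt ℝ 1 (fun X => gg X (g X)) X ∧
    (∀ v : E3, fderiv ℝ (fun X => gg X (g X)) X v =
      ((inner ℝ (er X) v : ℝ) : ℂ) * gr (jac g X) X (g X) + ((v 2 : ℝ) : ℂ) * gz (jac g X) X (g X)
        + ((inner ℝ (et X) v : ℝ) : ℂ) * gt (jac g X) X (g X)) ∧
    (∀ v : E3, ‖fderiv ℝ (fun X => gg X (g X)) X v‖ ≤ grd g (jac g) X * ‖v‖)) ∧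
  (∀ (g : E3 → E3) (ζ : ℂ) (θ : ℝ), ContDiff ℝ (⊤ : ℕ∞) g → 0 < ζ.re → 0 < rad (g (cyl ζ θ)) →
    ContDiffAt ℝ 1 (fun w => gg (cyl w θ) (g (cyl w θ))) ζ ∧
    dbar (fun w => gg (cyl w θ) (g (cyl w θ))) ζ = (1 / 2) *
      (gr (jac g (cyl ζ θ)) (cyl ζ θ) (g (cyl ζ θ))
        + I * gz (jac g (cyl ζ θ)) (cyl ζ θ) (g (cyl ζ θ))))

/-- IBP2.  Integration by parts in the plane (Mathlib:
`integral_mul_fderiv_eq_neg_fderiv_mul_of_integrable`, differentiability is needed only on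
`tsupport ψ`). -/
def Stmt_IBP2 : Prop :=
  ∀ (U : Set ℂ) (h ψ : ℂ → ℂ), IsOpen U → ContDiffOn ℝ 1 h U → ContDiff ℝ (⊤ : ℕ∞) ψ →
    HasCompactSupport ψ → tsupport ψ ⊆ U →
    ∫ ζ, h ζ * dbar ψ ζ = - ∫ ζ, dbar h ζ * ψ ζ

/-- WDBS.  Weak Cauchy-Riemann inequality for the modes of a smooth map: `IBP2` for every angle
`θ` (`U` = the open set of `ζ` with `0 < ζ.re` and `0 < rad (g (cyl ζ θ))`), `GDN`, Fubini on
`tsupport ψ × (0, 2π)`, `CYLI` with `U = tsupport ψ`. -/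
def Stmt_WDBS : Prop :=
  ∀ (ρ B : ℝ) (g : E3 → E3) (ψ : ℂ → ℂ) (k : Fin 5), 0 < ρ → ContDiff ℝ (⊤ : ℕ∞) g →
    ContDiff ℝ (⊤ : ℕ∞) ψ → HasCompactSupport ψ → tsupport ψ ⊆ HD ρ → (∀ ζ, ‖ψ ζ‖ ≤ B) →
    (∀ X, hp X ∈ tsupport ψ → 0 < rad (g X)) →
    ‖∫ ζ, modes (fun X => gg X (g X)) ζ k * dbar ψ ζ‖ ≤ ρ⁻¹ * B *
      ∫ X in {X | hp X ∈ tsupport ψ}, ‖gr (jac g X) X (g X) + I * gz (jac g X) X (g X)‖

/-! ## Smooth approximation -/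

/-- APX.  Smooth approximation of a normalised map on the compact set `KR ρ 40` (`MOLL`; on it
`rad (F X) ≥ 15 ρ/16`; `er` is continuous where `rad > 0`; `L^3` convergence of the matrices
gives `L^1` convergence; drop finitely many `n`). -/
def Stmt_APX : Prop :=
  ∀ (ρ ε : ℝ) (F : E3 → E3) (A : E3 → M3), 0 < ρ → ρ ≤ 1 → 0 ≤ ε → ε ≤ ρ / 16 → Nm ε F A →
    IntegrableOn (fun X => gr (A X) X (F X)) (KR ρ 40) ∧
    IntegrableOn (fun X => gz (A X) X (F X)) (KR ρ 40) ∧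
    IntegrableOn (fun X => gt (A X) X (F X)) (KR ρ 40) ∧
    ∃ g : ℕ → E3 → E3, (∀ n, ContDiff ℝ (⊤ : ℕ∞) (g n)) ∧
      (∀ n, ∀ X ∈ KR ρ 40, ρ / 2 ≤ rad (g n X)) ∧
      TendstoUniformlyOn (fun n X => gg X (g n X)) (fun X => gg X (F X)) atTop (KR ρ 40) ∧
      Tendsto (fun n => ∫ X in KR ρ 40, ‖gr (jac (g n) X) X (g n X) - gr (A X) X (F X)‖)
        atTop (𝓝 0) ∧
      Tendsto (fun n => ∫ X in KR ρ 40, ‖gz (jac (g n) X) X (g n X) - gz (A X) X (F X)‖)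
        atTop (𝓝 0) ∧
      Tendsto (fun n => ∫ X in KR ρ 40, ‖gt (jac (g n) X) X (g n X) - gt (A X) X (F X)‖)
        atTop (𝓝 0)

/-- DLI.  The defect `dl` of a normalised map is integrable and nonnegative away from the axis
(`F X ≠ 0` and `F X ≠ e3` there because `‖wind X‖ = ‖X‖`, `wind X - e3 = wind (X - e3)`;
`PIOI`: the determinant and the cofactor pairing are integrable on compact sets; `ENB`). -/
def Stmt_DLI : Prop :=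
  ∀ (ρ ε : ℝ) (F : E3 → E3) (A : E3 → M3), 0 < ρ → ρ ≤ 1 → 0 ≤ ε → ε ≤ ρ / 16 → Nm ε F A →
    IntegrableOn (dl F A) (RG ρ) ∧ (∀ᵐ X ∂(volume.restrict (RG ρ)), 0 ≤ dl F A X) ∧
    (∀ᵐ X ∂(volume.restrict (RG ρ)), 0 ≤ dfc (A X) X (F X) ∧
      0 ≤ dfc (A X) (X - e3) (F X - e3))

/-! ## Results used by the two model comparison -/

/-- WDB.  Weak Cauchy-Riemann inequality for the modes of a normalised map: `WDBS` for the maps
`g n` of `APX` (`{X | hp X ∈ tsupport ψ} ⊆ KR ρ 40`, `‖hp X‖ = ‖X‖`), limit `n → ∞` on both sides,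
then `PW` and monotonicity (`DLI`). -/
def Stmt_WDB : Prop :=
  ∀ ρ : ℝ, 0 < ρ → ρ ≤ 1 → ∃ C : ℝ, 0 < C ∧ ∀ (ε : ℝ) (F : E3 → E3) (A : E3 → M3), 0 ≤ ε →
    ε ≤ ρ / 16 → Nm ε F A → ∀ k : Fin 5,
    WB (HD ρ) (fun ζ => vv F ζ k) (C * ∫ X in RG ρ, dl F A X)

/-- GRD.  `L^1` bound of the gradient of `G` (`PW`, Cauchy-Schwarz on the bounded region). -/
def Stmt_GRD : Prop :=
  ∀ ρ : ℝ, 0 < ρ → ρ ≤ 1 → ∃ C : ℝ, 0 < C ∧ ∀ (ε : ℝ) (F : E3 → E3) (A : E3 → M3), 0 ≤ ε →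
    ε ≤ ρ / 16 → Nm ε F A →
    IntegrableOn (grd F A) (RG ρ) ∧
    ∫ X in RG ρ, grd F A X ≤ C * Real.sqrt (∫ X in RG ρ, dl F A X)

/-- DSPS.  Displacement inequality for smooth maps.  For `Y ∈ CY` the segment from
`Xhat = z0 e3 + lam R Y` to `X = x0 + lam S Y` has length at most `24 m lam`, its points have
`rad ≥ lam/16 - 24 m lam > lm/64` and norm `≤ 9 + (7/10) 23 + 1 < 32`; fundamental theorem of
calculus along the segment with `GDN`; Tonelli; for fixed `s` the map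
`Y ↦ (1-s) Xhat + s X` is affine with linear part `lam ((1-s) R + s S)`, injective with
Jacobian determinant `≥ lam^3 (1 - m)^3` in absolute value (`R⁻¹((1-s) R + s S)` is within `m` of
the identity). -/
def Stmt_DSPS : Prop :=
  ∀ lm : ℝ, 0 < lm → lm ≤ 7 / 10 → ∃ C : ℝ, 0 < C ∧ ∀ (g : E3 → E3) (lam m z0 α : ℝ) (S : M3)
    (x0 : E3), ContDiff ℝ (⊤ : ℕ∞) g → (∀ X ∈ KR (lm / 64) 40, 0 < rad (g X)) →
    lm ≤ lam → lam ≤ 7 / 10 → 0 ≤ m → m ≤ 1 / 1000 → |z0| ≤ 9 → ‖x0 - z0 • e3‖ ≤ m * lam →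
    (∀ Y : E3, ‖act S Y - act (rotz α) Y‖ ≤ m * ‖Y‖) →
    ∫ Y in CY, ‖gg (x0 + lam • act S Y) (g (x0 + lam • act S Y))
        - gg (z0 • e3 + lam • act (rotz α) Y) (g (z0 • e3 + lam • act (rotz α) Y))‖
      ≤ C * m * ∫ X in RG (lm / 64), grd g (jac g) X

/-- DISP.  Displacement inequality for normalised maps (`DSPS` for the maps of `APX` with
`ρ = lm/64`, limit `n → ∞`; the points `X`, `Xhat` are in `KR (lm/64) 40`). -/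
def Stmt_DISP : Prop :=
  ∀ lm : ℝ, 0 < lm → lm ≤ 7 / 10 → ∃ C : ℝ, 0 < C ∧ ∀ (ε : ℝ) (F : E3 → E3) (A : E3 → M3)
    (lam m z0 α : ℝ) (S : M3) (x0 : E3), 0 ≤ ε → ε ≤ lm / 1024 → Nm ε F A →
    lm ≤ lam → lam ≤ 7 / 10 → 0 ≤ m → m ≤ 1 / 1000 → |z0| ≤ 9 → ‖x0 - z0 • e3‖ ≤ m * lam →
    (∀ Y : E3, ‖act S Y - act (rotz α) Y‖ ≤ m * ‖Y‖) →
    IntegrableOn (fun Y => gg (x0 + lam • act S Y) (F (x0 + lam • act S Y))
        - gg (z0 • e3 + lam • act (rotz α) Y) (F (z0 • e3 + lam • act (rotz α) Y))) CY ∧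
    ∫ Y in CY, ‖gg (x0 + lam • act S Y) (F (x0 + lam • act S Y))
        - gg (z0 • e3 + lam • act (rotz α) Y) (F (z0 • e3 + lam • act (rotz α) Y))‖
      ≤ C * m * ∫ X in RG (lm / 64), grd F A X

end Pool.Mart
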