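import Pool.Agent.Work.MP_680515_an.Defs

/-!
# MP_680515_an: normalised maps, modes, packages
-/

open MeasureTheory Set Filter Topology Complex

namespace Pool.Mart

/-! ## Linear algebra of the defect -/

/-- `⟨H, cof(A) b⟩`. -/
noncomputable def cpair (A : M3) (H b : E3) : ℝ := ∑ i, ∑ j, H i * cofm A i j * b j

/-- The matrices that occur: inner distortion at most `2` and outer distortion at most `4`. -/
def Good (A : M3) : Prop := opn (cofm A) ^ 3 ≤ 2 * A.det ^ 2 ∧ opn A ^ 3 ≤ 4 * A.det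

/-- The scale invariant defect at a point with `X = x - p`, `Y = f x - f p`, `A = Df(x)`:
`|x-p|^3` times the defect density.  Nonnegative for `Good A`, zero for the winding map. -/
noncomputable def dfc (A : M3) (X Y : E3) : ℝ :=
  (2 / 3) * A.det * (‖X‖ / ‖Y‖) ^ 3 + 2 / 3
    - (‖X‖ / ‖Y‖) ^ 2 * cpair A (‖Y‖⁻¹ • Y) (‖X‖⁻¹ • X)

/-- Horizontal unit vector at `X`. -/
noncomputable def er (X : E3) : E3 := !₂[X 0 / rad X, X 1 / rad X, 0]

/-- Angular unit vector at `X`. -/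
noncomputable def et (X : E3) : E3 := !₂[-(X 1) / rad X, X 0 / rad X, 0]

/-- `G = (R - r) + i (Z - z)`, where `Y = F X`. -/
noncomputable def gg (X Y : E3) : ℂ := ((rad Y - rad X : ℝ) : ℂ) + ((Y 2 - X 2 : ℝ) : ℂ) * I

/-- Derivative of `G` in the radial direction. -/
noncomputable def gr (A : M3) (X Y : E3) : ℂ :=
  ((inner ℝ (er Y) (act A (er X)) - 1 : ℝ) : ℂ) + ((inner ℝ e3 (act A (er X)) : ℝ) : ℂ) * I

/-- Derivative of `G` in the vertical direction. -/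
noncomputable def gz (A : M3) (_X Y : E3) : ℂ :=
  ((inner ℝ (er Y) (act A e3) : ℝ) : ℂ) + ((inner ℝ e3 (act A e3) - 1 : ℝ) : ℂ) * I

/-- Derivative of `G` in the angular unit direction. -/
noncomputable def gt (A : M3) (X Y : E3) : ℂ :=
  ((inner ℝ (er Y) (act A (et X)) : ℝ) : ℂ) + ((inner ℝ e3 (act A (et X)) : ℝ) : ℂ) * I

/-! ## Normalised maps -/

/-- `F` is an `ε`-normalised map with weak gradient `A`: `ε`-close to the winding map on the ball
of radius `64` and fixing the base points `0` and `e3`. -/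
structure Nm (ε : ℝ) (F : E3 → E3) (A : E3 → M3) : Prop where
  cont : ContinuousOn F (Metric.ball 0 64)
  wg : WeakGrad (Metric.ball 0 64) F A
  good : ∀ᵐ X ∂(volume.restrict (Metric.ball (0 : E3) 64)), Good (A X)
  close : ∀ X ∈ Metric.ball (0 : E3) 64, ‖F X - wind X‖ ≤ ε
  zero : F 0 = 0
  one : F e3 = e3

/-- Defect of a normalised map at the base point `0`, integrated over a ring. -/
noncomputable def DD (ρ : ℝ) (F : E3 → E3) (A : E3 → M3) : ℝ :=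
  ∫ X in {X : E3 | ρ < ‖X‖ ∧ ‖X‖ < 40}, dfc (A X) X (F X)

/-- Sum of the scale invariant defects at the two base points. -/
noncomputable def dl (F : E3 → E3) (A : E3 → M3) (X : E3) : ℝ :=
  dfc (A X) X (F X) + dfc (A X) (X - e3) (F X - e3)

/-! ## Modes -/

/-- Cylindrical coordinates: `ζ = r + i z`. -/
noncomputable def cyl (ζ : ℂ) (θ : ℝ) : E3 := !₂[ζ.re * Real.cos θ, ζ.re * Real.sin θ, ζ.im]

/-- Angular weights. -/
noncomputable def kap (k : Fin 5) (θ : ℝ) : ℝ :=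
  ![1, Real.cos θ, Real.sin θ, Real.cos (2 * θ), Real.sin (2 * θ)] k

/-- The mode zero is multiplied by `i`. -/
noncomputable def cst (k : Fin 5) : ℂ := ![I, 1, 1, 1, 1] k

/-- `ℂ^5` with the Euclidean norm. -/
abbrev C5 := EuclideanSpace ℂ (Fin 5)

/-- The five mode functions of a function `g` on three space. -/
noncomputable def modes (g : E3 → ℂ) (ζ : ℂ) : C5 :=
  WithLp.toLp 2 fun k => cst k * ((2 * Real.pi)⁻¹ : ℝ) * ∫ θ in (0 : ℝ)..(2 * Real.pi),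
    (kap k θ : ℂ) * g (cyl ζ θ)

/-- The five mode functions of a normalised map. -/
noncomputable def vv (F : E3 → E3) (ζ : ℂ) : C5 := modes (fun X => gg X (F X)) ζ

/-- Real affine functions `a + b (z - i r)` with real vectors `a`, `b`. -/
noncomputable def aff (a b : Fin 5 → ℝ) (ζ : ℂ) : C5 :=
  WithLp.toLp 2 fun k => (a k : ℂ) + (b k : ℂ) * (-I * ζ)

/-- The standard region in the half plane. -/
def QQ : Set ℂ := {ζ | 1 / 8 < ζ.re ∧ ζ.re < 9 ∧ |ζ.im| < 9}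

/-- Distance of the modes to the real affine functions. -/
noncomputable def dd (F : E3 → E3) : ℝ :=
  ⨅ p : (Fin 5 → ℝ) × (Fin 5 → ℝ), ∫ ζ in QQ, ‖vv F ζ - aff p.1 p.2 ζ‖

/-! ## Weak Cauchy-Riemann equation in the half plane -/

/-- The operator `∂/∂ζ̄` for `ζ = r + i z`. -/
noncomputable def dbar (ψ : ℂ → ℂ) (ζ : ℂ) : ℂ :=
  (1 / 2) * (fderiv ℝ ψ ζ 1 + I * fderiv ℝ ψ ζ I)

/-- The weak `∂̄` of `v` on `U` is a measure of total mass at most `M`. -/
def WB (U : Set ℂ) (v : ℂ → ℂ) (M : ℝ) : Prop :=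
  ∀ ψ : ℂ → ℂ, ContDiff ℝ (⊤ : ℕ∞) ψ → HasCompactSupport ψ → tsupport ψ ⊆ U →
    ∀ B : ℝ, (∀ ζ, ‖ψ ζ‖ ≤ B) → ‖∫ ζ, v ζ * dbar ψ ζ‖ ≤ M * B

/-- The region `{r > ρ, |ζ| < 20}`. -/
def HD (ρ : ℝ) : Set ℂ := {ζ | ρ < ζ.re ∧ ‖ζ‖ < 20}

/-! ## Packages: a curve of branch points with all scales -/

/-- Side length at scale `n`. -/
noncomputable def sc (n : ℕ) : ℝ := (2 : ℝ)⁻¹ ^ n

/-- Source chord. -/
noncomputable def len (γ : ℝ → E3) (t : ℝ) (n : ℕ) : ℝ := ‖γ (t + sc n) - γ t‖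

/-- A package: `f` near the curve `γ`, frames `O` (source) and `O'` (target) for all parameters
`t` in `[-20,20]` and all scales `n`. -/
structure Pack (ε : ℝ) (Ω : Set E3) (f : E3 → E3) (γ : ℝ → E3) (O O' : ℝ → ℕ → M3) : Prop where
  pos : ∀ t ∈ Icc (-20 : ℝ) 20, ∀ n, 0 < len γ t n
  pos' : ∀ t ∈ Icc (-20 : ℝ) 20, ∀ n, 0 < len (f ∘ γ) t n
  so : ∀ t ∈ Icc (-20 : ℝ) 20, ∀ n, O t n ∈ Matrix.specialOrthogonalGroup (Fin 3) ℝ
  so' : ∀ t ∈ Icc (-20 : ℝ) 20, ∀ n, O' t n ∈ Matrix.specialOrthogonalGroup (Fin 3) ℝ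
  base : ∀ t ∈ Icc (-20 : ℝ) 20, ∀ n,
    γ (t + sc n) - γ t = len γ t n • act (O t n) e3
  base' : ∀ t ∈ Icc (-20 : ℝ) 20, ∀ n,
    f (γ (t + sc n)) - f (γ t) = len (f ∘ γ) t n • act (O' t n) e3
  sub : ∀ t ∈ Icc (-20 : ℝ) 20, ∀ n, Metric.ball (γ t) (64 * len γ t n) ⊆ Ω
  close : ∀ t ∈ Icc (-20 : ℝ) 20, ∀ n, ∀ X ∈ Metric.ball (0 : E3) 64,
    ‖f (γ t + len γ t n • act (O t n) X) - f (γ t) - len (f ∘ γ) t n • act (O' t n) (wind X)‖
      ≤ ε * len (f ∘ γ) t n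
  line : ∀ t ∈ Icc (-20 : ℝ) 20, ∀ n, ∀ s : ℝ, |s| ≤ 64 → t + s * sc n ∈ Icc (-21 : ℝ) 21 →
    ‖γ (t + s * sc n) - γ t - (s * len γ t n) • act (O t n) e3‖ ≤ ε * len γ t n

/-- Normalised map of the system `(t, n)`. -/
noncomputable def nF (f : E3 → E3) (γ : ℝ → E3) (O O' : ℝ → ℕ → M3) (t : ℝ) (n : ℕ) (X : E3) : E3 :=
  (len (f ∘ γ) t n)⁻¹ • act (O' t n).transpose
    (f (γ t + len γ t n • act (O t n) X) - f (γ t))

/-- Gradient of the normalised map of the system `(t, n)`. -/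
noncomputable def nA (f : E3 → E3) (A : E3 → M3) (γ : ℝ → E3) (O O' : ℝ → ℕ → M3) (t : ℝ) (n : ℕ)
    (X : E3) : M3 :=
  (len γ t n / len (f ∘ γ) t n) •
    ((O' t n).transpose * A (γ t + len γ t n • act (O t n) X) * O t n)

/-- Coordinates of a point in the system `(t, n)`. -/
noncomputable def nX (γ : ℝ → E3) (O : ℝ → ℕ → M3) (t : ℝ) (n : ℕ) (x : E3) : E3 :=
  (len γ t n)⁻¹ • act (O t n).transpose (x - γ t)

/-- Deviation of a pair (source point, target point) from the model in normalised coordinates. -/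
noncomputable def dev (X Y : E3) : ℝ := rad X + rad Y + |Y 2 - X 2|

/-- Deviation of the curve point `γ s` in the system `(t, n)`. -/
noncomputable def Dv (f : E3 → E3) (γ : ℝ → E3) (O O' : ℝ → ℕ → M3) (t : ℝ) (n : ℕ) (s : ℝ) : ℝ :=
  dev (nX γ O t n (γ s)) (nF f γ O O' t n (nX γ O t n (γ s)))

/-- `log` of the ratio of the source and target chords. -/
noncomputable def FF (f : E3 → E3) (γ : ℝ → E3) (t : ℝ) (n : ℕ) : ℝ :=
  Real.log (len γ t n / len (f ∘ γ) t n)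

end Pool.Mart
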